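import Mathlib
import Pool.Agent.TH841.NO.Stm

/-!
# Project FD: finite descent on the locally solvable quartics in families

`E : y² = x (x - A) (x - B)`, `C = C_{b₁} : N² = b₁ M⁴ - (A + B) M² e² + (A B / b₁) e⁴`, a curve of
genus one. Its unramified double coverings `D_d : b₁ M² - A e² = d x²`, `b₁ M² - B e² = b₁ d y²`
(`N = d x y`) are 2-coverings of `E`; every 2-covering of `C` factors through one of them. If `D_d`
is everywhere locally solvable then `(b₁, d)` belongs to the 2-Selmer group of `E`, which is small on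
average; while the number of the everywhere locally solvable `C_{b₁}` is large (project NO). So for
almost all the everywhere locally solvable `C_{b₁}` no 2-covering is everywhere locally solvable.
-/

set_option autoImplicit false

namespace Pool.Agent.TH841.FD

open Finset

open Pool.Agent.W307.SE (Loc Sel SN)

/-- the covering `D_d` of `C_{b₁}` has a point over `K` -/
def Cov (K : Type) [Field K] (A B b₁ d : ℤ) : Prop := ∃ M e x y : K, (M ≠ 0 ∨ e ≠ 0) ∧
  (b₁ : K) * M ^ 2 - (A : K) * e ^ 2 = (d : K) * x ^ 2 ∧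
  (b₁ : K) * M ^ 2 - (B : K) * e ^ 2 = (b₁ : K) * d * y ^ 2

/-- FD-LOC: points of the coverings over the completions and the pairs `(b₁, d)`. -/
def COVL : Prop := ∀ A B b₁ d : ℤ, A ≠ 0 → B ≠ 0 → A ≠ B → b₁ ≠ 0 → d ≠ 0 →
  (Cov ℝ A B b₁ d → Loc ℝ A B b₁ d) ∧
    ∀ (p : ℕ) [Fact p.Prime], Cov ℚ_[p] A B b₁ d → Loc ℚ_[p] A B b₁ d

open Classical in
/-- FD-COPR: at least a quarter of the pairs of a short square are coprime and satisfy
`a b (a - b) ≠ 0`. -/
def COPR : Prop := ∀ L : ℕ, ∃ X0 : ℕ, ∀ (N1 N2 : ℤ) (X : ℕ), X0 ≤ X → N1.natAbs ≤ X ^ L →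
  N2.natAbs ≤ X ^ L → (X : ℝ) ^ 2 / 4 ≤ (((Icc 1 X ×ˢ Icc 1 X).filter (fun t : ℕ × ℕ =>
      IsCoprime (N1 + (t.1 : ℤ)) (N2 + (t.2 : ℤ)) ∧ N1 + (t.1 : ℤ) ≠ 0 ∧ N2 + (t.2 : ℤ) ≠ 0 ∧
      N1 + (t.1 : ℤ) ≠ N2 + (t.2 : ℤ))).card : ℝ)

end Pool.Agent.TH841.FD
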