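import Mathlib
import Pool.Agent.TH841.FD.Stm
import Pool.Agent.TH841.NO.Fin

/-!
# Project FD: for almost all the everywhere locally solvable quartics no covering is everywhere
locally solvable
-/

set_option autoImplicit false

namespace Pool.Agent.TH841.FD

open Finset Polynomial

open Pool.Agent.TH841.NO (SQ Qu fo lb sq_finite)

open Pool.Agent.TH841.LS (GA GD C1x C2x CNTX CNT2X DG FP_eq sc cst_eq big_loglog)

open Pool.Agent.TH841.PT (Irr)

open Pool.Agent.TH841.TR (UP FP allf allc fp AV3X Bal pen_all)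

open Pool.Agent.TH841.PM (DZ dz_fin zeros_fin dz_iUnion)

open Pool.Agent.W307.SE (Loc Sel SN SN_nonneg sel_fin)

open Pool.Agent.W262.RK (fs)

/-- the everywhere locally solvable quartics with an everywhere locally solvable covering -/
def LF (A B : ℤ) : Set ℤ := {b₁ | b₁ ∈ SQ (-(A + B)) (A * B) ∧ ∃ d : ℤ, Squarefree d ∧
  Cov ℝ A B b₁ d ∧ ∀ (p : ℕ) [Fact p.Prime], Cov ℚ_[p] A B b₁ d}

theorem lf_le (hcov : COVL) {A B : ℤ} (hA : A ≠ 0) (hB : B ≠ 0) (hAB : A ≠ B) :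
    ((LF A B).ncard : ℝ) ≤ SN A B := by
  classical
  have hsel : (Sel A B).Finite := sel_fin Pool.Agent.W410.FK.seld hA hB hAB
  choose! dd hd using fun (b₁ : ℤ) (hb : b₁ ∈ LF A B) => hb.2
  have hsub : ((fun b₁ : ℤ => (b₁, dd b₁)) '' (LF A B)) ⊆ Sel A B := by
    rintro x ⟨b₁, hb, rfl⟩
    obtain ⟨h1, h2, h3⟩ := hd b₁ hb
    obtain ⟨l1, l2⟩ := hcov A B b₁ (dd b₁) hA hB hAB hb.1.1.ne_zero h1.ne_zero
    exact ⟨hb.1.1, h1, l1 h2, fun p _ => l2 p (h3 p)⟩
  have h1 : ((fun b₁ : ℤ => (b₁, dd b₁)) '' (LF A B)).ncard = (LF A B).ncard := by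
    rw [Set.ncard_image_of_injective _ (fun x y h => (Prod.mk.inj h).1)]
  have h2 := Set.ncard_le_ncard hsub hsel
  rw [h1] at h2
  change ((LF A B).ncard : ℝ) ≤ ((Sel A B).ncard : ℝ)
  exact_mod_cast h2

/-! ### Rational points lift -/

lemma sqf_part {α : ℚ} (h : α ≠ 0) : ∃ (d : ℤ) (x : ℚ), Squarefree d ∧ x ≠ 0 ∧
    α = (d : ℚ) * x ^ 2 := by
  obtain ⟨a, b, hab, ha⟩ := Nat.sq_mul_squarefree (α.num.natAbs * α.den)
  have hnum : α.num ≠ 0 := Rat.num_ne_zero.2 h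
  have hden : (α.den : ℚ) ≠ 0 := by exact_mod_cast α.den_nz
  have hb : b ≠ 0 := by
    rintro rfl
    have : α.num.natAbs * α.den = 0 := by rw [← hab]; ring
    rcases Nat.mul_eq_zero.1 this with h1 | h1
    · exact hnum (Int.natAbs_eq_zero.1 h1)
    · exact α.den_nz h1
  have hbq : (b : ℚ) ≠ 0 := by exact_mod_cast hb
  have hq : ((b : ℚ) ^ 2 * a) = (α.num.natAbs : ℚ) * α.den := by exact_mod_cast hab
  have hα : α * α.den = α.num := Rat.mul_den_eq_num α
  rcases Int.natAbs_eq α.num with hn | hn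
  · refine ⟨(a : ℤ), b / α.den, ?_, div_ne_zero hbq hden, ?_⟩
    · exact Int.squarefree_natCast.2 ha
    · have h1 : (α.num : ℚ) = (α.num.natAbs : ℚ) := by
        have h0 := congrArg (fun z : ℤ => (z : ℚ)) hn
        simp only [Int.cast_natCast] at h0
        exact h0
      rw [h1] at hα
      rw [← hα] at hq
      push_cast
      rw [div_pow, ← mul_div_assoc, eq_div_iff (pow_ne_zero 2 hden)]
      linear_combination -hq
  · refine ⟨-(a : ℤ), b / α.den, ?_, div_ne_zero hbq hden, ?_⟩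
    · rw [← Int.squarefree_natAbs, Int.natAbs_neg, Int.natAbs_natCast]
      exact ha
    · have h1 : (α.num : ℚ) = -(α.num.natAbs : ℚ) := by
        have h0 := congrArg (fun z : ℤ => (z : ℚ)) hn
        simp only [Int.cast_neg, Int.cast_natCast] at h0
        exact h0
      have h2 : (α.num.natAbs : ℚ) = -(α * α.den) := by rw [hα, h1]; ring
      rw [h2] at hq
      push_cast
      rw [div_pow, ← mul_div_assoc, eq_div_iff (pow_ne_zero 2 hden)]
      linear_combination hq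

theorem lift_rat {A B b₁ : ℤ} (hAB : A ≠ B) (hb : b₁ ≠ 0) (hd : b₁ ∣ A * B)
    (h : Qu ℚ (-(A + B)) (A * B) b₁) : ∃ d : ℤ, Squarefree d ∧ Cov ℚ A B b₁ d := by
  obtain ⟨N, M, e, hMe, hN⟩ := h
  obtain ⟨q, hq⟩ := hd
  rw [hq, Int.mul_ediv_cancel_left _ hb] at hN
  have hbq : (b₁ : ℚ) ≠ 0 := by exact_mod_cast hb
  have hqq : (A : ℚ) * B = b₁ * q := by exact_mod_cast hq
  have key : (b₁ : ℚ) * N ^ 2 = (b₁ * M ^ 2 - A * e ^ 2) * (b₁ * M ^ 2 - B * e ^ 2) := by
    rw [hN]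
    push_cast
    linear_combination (-e ^ 4) * hqq
  by_cases hα : (b₁ : ℚ) * M ^ 2 - A * e ^ 2 = 0
  · have he : e ≠ 0 := by
      rintro rfl
      have : M = 0 := by
        have h1 : (b₁ : ℚ) * M ^ 2 = 0 := by linear_combination hα
        rcases mul_eq_zero.1 h1 with h2 | h2
        · exact absurd h2 hbq
        · exact pow_eq_zero_iff two_ne_zero |>.1 h2
      rcases hMe with h1 | h1
      · exact h1 this
      · exact h1 rfl
    have hβ : (b₁ : ℚ) * ((A - B) * e ^ 2) ≠ 0 :=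
      mul_ne_zero hbq (mul_ne_zero (sub_ne_zero.2 (by exact_mod_cast hAB)) (pow_ne_zero 2 he))
    obtain ⟨d, y, hd, _, hy⟩ := sqf_part hβ
    refine ⟨d, hd, M, e, 0, y / b₁, hMe, ?_, ?_⟩
    · rw [hα]
      ring
    · have h1 : (b₁ : ℚ) * M ^ 2 - B * e ^ 2 = (A - B) * e ^ 2 := by linear_combination hα
      rw [h1]
      field_simp
      linear_combination hy
  · obtain ⟨d, x, hd, hx, hx'⟩ := sqf_part hα
    have hdq : (d : ℚ) ≠ 0 := by exact_mod_cast hd.ne_zero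
    refine ⟨d, hd, M, e, x, N / (d * x), hMe, hx', ?_⟩
    rw [hx'] at key
    have h1 : (d : ℚ) * x ^ 2 ≠ 0 := mul_ne_zero hdq (pow_ne_zero 2 hx)
    have h2 : (b₁ : ℚ) * M ^ 2 - B * e ^ 2 = b₁ * N ^ 2 / (d * x ^ 2) := by
      rw [eq_div_iff h1]
      linear_combination -key
    rw [h2]
    field_simp

lemma cov_map {K L : Type} [Field K] [Field L] (φ : K →+* L) {A B b₁ d : ℤ}
    (h : Cov K A B b₁ d) : Cov L A B b₁ d := by
  obtain ⟨M, e, x, y, hMe, h1, h2⟩ := h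
  refine ⟨φ M, φ e, φ x, φ y, ?_, ?_, ?_⟩
  · rcases hMe with h | h
    · exact Or.inl (fun h' => h ((map_eq_zero φ).1 h'))
    · exact Or.inr (fun h' => h ((map_eq_zero φ).1 h'))
  · have := congrArg φ h1
    simpa using this
  · have := congrArg φ h2
    simpa using this

/-- the quartics with a rational point belong to the set -/
theorem rat_mem {A B b₁ : ℤ} (hAB : A ≠ B) (hs : b₁ ∈ SQ (-(A + B)) (A * B))
    (h : Qu ℚ (-(A + B)) (A * B) b₁) : b₁ ∈ LF A B := by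
  obtain ⟨d, hd, hc⟩ := lift_rat hAB hs.1.ne_zero hs.2.1 h
  exact ⟨hs, d, hd, cov_map (Rat.castHom ℝ) hc, fun p _ => cov_map (Rat.castHom ℚ_[p]) hc⟩

/-! ### The comparison -/

lemma ratio (κ δ C0 : ℝ) (hδ : 0 < δ) (hC0 : 0 ≤ C0) : ∃ M3 : ℕ, ∀ M : ℕ, M3 ≤ M →
    ∀ X T U : ℝ, 0 ≤ X →
    X / 8 * (2 : ℝ) ^ ((κ - δ / 2) * Real.log (Real.log M) - 5) ≤ T → U ≤ C0 * X →
    U ≤ (Real.log M) ^ (δ - κ * Real.log 2) * T := by
  obtain ⟨M1, hM1⟩ := big_loglog (δ / 2) (256 * C0) (by positivity)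
  refine ⟨M1 + 3, fun M hM X T U hX hT hU => ?_⟩
  have h1 := hM1 M (by omega)
  have hM3 : (3 : ℝ) ≤ M := by exact_mod_cast (by omega : 3 ≤ M)
  have hl : 1 < Real.log M := by
    rw [Real.lt_log_iff_exp_lt (by linarith)]
    exact lt_of_lt_of_le Real.exp_one_lt_three hM3
  have hl0 : 0 < Real.log M := by linarith
  set y := Real.log (Real.log M) with hy
  have hy0 : 0 < y := Real.log_pos hl
  have hlog2 : Real.log 2 < 1 := by
    have := Real.log_two_lt_d9
    linarith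
  have hlog20 : 0 < Real.log 2 := Real.log_pos (by norm_num)
  have e1 : (2 : ℝ) ^ ((κ - δ / 2) * y - 5) = Real.exp (Real.log 2 * ((κ - δ / 2) * y - 5)) :=
    Real.rpow_def_of_pos (by norm_num) _
  have e2 : (Real.log M) ^ (δ - κ * Real.log 2) = Real.exp (y * (δ - κ * Real.log 2)) :=
    Real.rpow_def_of_pos hl0 _
  have e3 : Real.exp (y * (δ - κ * Real.log 2)) * (X / 8 *
      Real.exp (Real.log 2 * ((κ - δ / 2) * y - 5))) =
      X / 8 * Real.exp (y * (δ - δ / 2 * Real.log 2) - 5 * Real.log 2) := by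
    rw [mul_comm, mul_assoc, ← Real.exp_add]
    congr 2
    ring
  have e4 : Real.exp (5 * Real.log 2) = 32 := by
    rw [← Real.log_rpow (by norm_num), Real.exp_log (by positivity)]
    norm_num
  have e5 : 256 * C0 ≤ Real.exp (y * (δ - δ / 2 * Real.log 2)) := by
    have h2 : δ / 2 * y ≤ y * (δ - δ / 2 * Real.log 2) := by nlinarith [mul_pos hδ hy0]
    calc 256 * C0 ≤ δ / 2 * y := h1
      _ ≤ δ / 2 * y + 1 := by linarith
      _ ≤ Real.exp (δ / 2 * y) := Real.add_one_le_exp _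
      _ ≤ _ := Real.exp_le_exp.2 h2
  have e6 : X / 8 * Real.exp (y * (δ - δ / 2 * Real.log 2) - 5 * Real.log 2) =
      X / 256 * Real.exp (y * (δ - δ / 2 * Real.log 2)) := by
    rw [Real.exp_sub, e4]
    ring
  rw [e2]
  rw [e1] at hT
  calc U ≤ C0 * X := hU
    _ = X / 256 * (256 * C0) := by ring
    _ ≤ X / 256 * Real.exp (y * (δ - δ / 2 * Real.log 2)) :=
        mul_le_mul_of_nonneg_left e5 (by positivity)
    _ = Real.exp (y * (δ - κ * Real.log 2)) * (X / 8 *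
        Real.exp (Real.log 2 * ((κ - δ / 2) * y - 5))) := by rw [e3, e6]
    _ ≤ Real.exp (y * (δ - κ * Real.log 2)) * T :=
        mul_le_mul_of_nonneg_left hT (Real.exp_pos _).le

/-- many quartics -/
lemma many {A B : ℤ} (hA : A ≠ 0) (hB : B ≠ 0) (hAB : A ≠ B) {r : ℝ}
    (h : r + ((C1x A B).card : ℝ) + ((C2x A B).card : ℝ) ≤
      ((GA A B).card : ℝ) + ((GD A B).card : ℝ)) :
    (2 : ℝ) ^ (r - 5) ≤ ((SQ (-(A + B)) (A * B)).ncard : ℝ) := by
  have hfin : (SQ (-(A + B)) (A * B)).Finite := sq_finite (mul_ne_zero hA hB)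
  have h0 : (SQ (-(A + B)) (A * B)).Nonempty := by
    refine ⟨1, squarefree_one, one_dvd _, ⟨1, 1, 0, Or.inl one_ne_zero, ?_⟩, fun p _ =>
      ⟨1, 1, 0, Or.inl one_ne_zero, ?_⟩⟩
    · push_cast
      ring
    · push_cast
      ring
  have hn : (SQ (-(A + B)) (A * B)).ncard ≠ 0 := by
    rw [Ne, Set.ncard_eq_zero hfin]
    exact h0.ne_empty
  have h1 := lb NO.QULf.qul LS.LOCAf.loca LS.LOCBf.locb LS.LOCBf.locc LS.LOCDf.locd
    LS.LOCDf.loce LS.LINf.lin hA hB hAB hfin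
  have h2 : 2 ^ fo (-(A + B)) (A * B) ≤ (SQ (-(A + B)) (A * B)).ncard :=
    Nat.pow_log_le_self 2 hn
  have h3 : ((GA A B).card : ℝ) + ((GD A B).card : ℝ) ≤ fo (-(A + B)) (A * B) +
      ((C1x A B).card : ℝ) + ((C2x A B).card : ℝ) + 5 := by
    exact_mod_cast h1
  have h4 : r - 5 ≤ (fo (-(A + B)) (A * B) : ℝ) := by linarith
  calc (2 : ℝ) ^ (r - 5) ≤ (2 : ℝ) ^ (fo (-(A + B)) (A * B) : ℝ) :=
        Real.rpow_le_rpow_of_exponent_le (by norm_num) h4
    _ = (2 : ℝ) ^ fo (-(A + B)) (A * B) := Real.rpow_natCast _ _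
    _ ≤ _ := by exact_mod_cast h2

section

variable {n : Fin 3 → ℕ} {m : ℕ}

open Classical in
/-- **one-parameter families** -/
theorem pencil (hcov : COVL) (a : Fin 3 → ℤ)
    (f : ∀ k : Fin 3, Fin (n k) → ℤ[X]) (c : ℤ) (g : Fin m → ℤ[X])
    (ha : ∀ k, a k ≠ 0) (hc : c ≠ 0) (hf : Irr (allf g f))
    (hU : UP a f 0 - UP a f 1 = UP a f 2) (hn : Bal (DG c g) a f) (δ : ℝ) (L : ℕ)
    (hδ : 0 < δ) :
    ∃ M0 : ℕ, ∀ (N : ℤ) (M : ℕ), M0 ≤ M → |N| ≤ (M : ℤ) ^ L →
      ∑ t ∈ (Ioc N (N + (M : ℤ))).filter (fun t => ∀ k, (DG c g * UP a f k).eval t ≠ 0),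
        ((LF ((DG c g * UP a f 0).eval t) ((DG c g * UP a f 1).eval t)).ncard : ℝ) ≤
      (Real.log M) ^ (δ - sc a f c g * Real.log 2) *
      ∑ t ∈ (Ioc N (N + (M : ℤ))).filter (fun t => ∀ k, (DG c g * UP a f k).eval t ≠ 0),
        ((SQ (-((DG c g * UP a f 0).eval t + (DG c g * UP a f 1).eval t))
          ((DG c g * UP a f 0).eval t * (DG c g * UP a f 1).eval t)).ncard : ℝ) := by
  have ha' : ∀ k, (fun k => c * a k) k ≠ 0 := fun k => mul_ne_zero hc (ha k)
  have hf0 : Irr (fp f) := by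
    refine ⟨fun x => hf.irr (Sum.inl x), fun x => hf.deg (Sum.inl x), fun x y hxy => ?_⟩
    exact hf.assoc (Sum.inl x) (Sum.inl y) (fun h => hxy (Sum.inl_injective h))
  have hD : DG c g ≠ 0 := by
    unfold DG
    exact mul_ne_zero (C_ne_zero.2 hc)
      (prod_ne_zero_iff.2 fun i _ => (hf.irr (Sum.inr i)).ne_zero)
  have hDf : ∀ k i, ¬ f k i ∣ DG c g := by
    intro k i hdvd
    have hirr : Irreducible (f k i) := hf.irr (Sum.inl ⟨k, i⟩)
    have hp : Prime (f k i) := hirr.prime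
    unfold DG at hdvd
    rcases hp.dvd_or_dvd hdvd with h1 | h1
    · have h2 := natDegree_le_of_dvd h1 (C_ne_zero.2 hc)
      rw [natDegree_C] at h2
      have h3 : 0 < (f k i).natDegree := hf.deg (Sum.inl ⟨k, i⟩)
      omega
    · obtain ⟨l, _, hl⟩ := (Prime.dvd_finsetProd_iff hp _).1 h1
      have h2 : Associated (f k i) (g l) :=
        hirr.associated_of_dvd (hf.irr (Sum.inr l)) hl
      exact hf.assoc (Sum.inl ⟨k, i⟩) (Sum.inr l) (by simp) h2
  have hP : ∀ k, C ((fun k => c * a k) k) * ∏ l ∈ fs (allc n m) k, allf g f l =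
      FP (fun k => c * a k) g f k := by
    intro k
    rw [Pool.Agent.TH841.TR.prod_allc]
    unfold FP
    rw [mul_assoc]
    rfl
  have hV : ∀ k t, PT.Fval (allc n m) (fun k => c * a k) (fun l => (allf g f l).eval t) k =
      (DG c g * UP a f k).eval t := by
    intro k t
    rw [← FP_eq, ← hP k, eval_mul, eval_C, eval_prod]
    rfl
  have hF' : FP (fun k => c * a k) g f 0 - FP (fun k => c * a k) g f 1 =
      FP (fun k => c * a k) g f 2 := by
    rw [FP_eq, FP_eq, FP_eq, ← mul_sub, hU]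
  have hcnt' := (LS.CNTXf.cntx_of LS.TKXf.tkx) ((Σ k : Fin 3, Fin (n k)) ⊕ Fin m) (allc n m)
    (fun k => c * a k) (allf g f)
    ha' hf (by rw [hP, hP, hP]; exact hF') (δ / 2) (1 / 2) L (by positivity) (by norm_num)
  simp only [hV, cst_eq hc] at hcnt'
  obtain ⟨M1, hM1⟩ := hcnt'
  obtain ⟨C0, hC0, hC⟩ := pen_all Pool.Agent.TH841.TR.tav3x a f ha hf0 hU (DG c g) hD hDf hn L
  obtain ⟨M3, hM3⟩ := ratio (sc a f c g) δ C0 hδ hC0
  refine ⟨M1 + M3 + 1, fun N M hM hN => ?_⟩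
  have h1 := hM1 N M (by omega) hN
  have h3 := hC N M (by omega) hN
  have hM0 : (0 : ℝ) ≤ M := Nat.cast_nonneg _
  have hne : ∀ t, (∀ k, (DG c g * UP a f k).eval t ≠ 0) →
      (DG c g * UP a f 0).eval t ≠ (DG c g * UP a f 1).eval t := by
    intro t e1 h'
    apply e1 2
    rw [← hU, mul_sub, eval_sub, h', sub_self]
  refine hM3 M (by omega) M _ _ hM0 ?_ ?_
  · -- the lower bound
    let G : Finset ℤ := (Ioc N (N + (M : ℤ))).filter (fun t => (∀ j, (allf g f j).eval t ≠ 0) ∧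
      (sc a f c g - δ / 2) * Real.log (Real.log M) +
      ((C1x ((DG c g * UP a f 0).eval t) ((DG c g * UP a f 1).eval t)).card : ℝ) +
      ((C2x ((DG c g * UP a f 0).eval t) ((DG c g * UP a f 1).eval t)).card : ℝ) ≤
      ((GA ((DG c g * UP a f 0).eval t) ((DG c g * UP a f 1).eval t)).card : ℝ) +
      ((GD ((DG c g * UP a f 0).eval t) ((DG c g * UP a f 1).eval t)).card : ℝ))
    have hGc : (M : ℝ) / 8 ≤ G.card := by
      have h5 := card_filter_add_card_filter_not (s := Ioc N (N + (M : ℤ)))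
        (fun t => (∀ j, (allf g f j).eval t ≠ 0) ∧
      (sc a f c g - δ / 2) * Real.log (Real.log M) +
      ((C1x ((DG c g * UP a f 0).eval t) ((DG c g * UP a f 1).eval t)).card : ℝ) +
      ((C2x ((DG c g * UP a f 0).eval t) ((DG c g * UP a f 1).eval t)).card : ℝ) ≤
      ((GA ((DG c g * UP a f 0).eval t) ((DG c g * UP a f 1).eval t)).card : ℝ) +
      ((GD ((DG c g * UP a f 0).eval t) ((DG c g * UP a f 1).eval t)).card : ℝ))
      rw [Int.card_Ioc] at h5
      have h6 : (N + (M : ℤ) - N).toNat = M := by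
        rw [add_sub_cancel_left, Int.toNat_natCast]
      rw [h6] at h5
      have h7 := congrArg (fun x : ℕ => (x : ℝ)) h5
      simp only [Nat.cast_add] at h7
      linarith
    have hGs : G ⊆ (Ioc N (N + (M : ℤ))).filter
        (fun t => ∀ k, (DG c g * UP a f k).eval t ≠ 0) := by
      intro t ht
      obtain ⟨ht1, ht2, _⟩ := mem_filter.1 ht
      refine mem_filter.2 ⟨ht1, fun k => ?_⟩
      rw [← hV k t]
      have h8 : PT.Fval (allc n m) (fun k => c * a k) (fun l => (allf g f l).eval t) k =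
        (c * a k) * ∏ l ∈ fs (allc n m) k, (allf g f l).eval t := rfl
      rw [h8]
      exact mul_ne_zero (ha' k) (prod_ne_zero_iff.2 fun l _ => ht2 l)
    have h9 : ∀ t ∈ G, (2 : ℝ) ^ ((sc a f c g - δ / 2) * Real.log (Real.log M) - 5) ≤
        ((SQ (-((DG c g * UP a f 0).eval t + (DG c g * UP a f 1).eval t))
          ((DG c g * UP a f 0).eval t * (DG c g * UP a f 1).eval t)).ncard : ℝ) := by
      intro t ht
      have ht' := (mem_filter.1 (hGs ht)).2
      exact many (ht' 0) (ht' 1) (hne t ht') (mem_filter.1 ht).2.2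
    calc (M : ℝ) / 8 * (2 : ℝ) ^ ((sc a f c g - δ / 2) * Real.log (Real.log M) - 5)
        ≤ G.card * (2 : ℝ) ^ ((sc a f c g - δ / 2) * Real.log (Real.log M) - 5) :=
          mul_le_mul_of_nonneg_right hGc (by positivity)
      _ ≤ ∑ t ∈ G, ((SQ (-((DG c g * UP a f 0).eval t + (DG c g * UP a f 1).eval t))
          ((DG c g * UP a f 0).eval t * (DG c g * UP a f 1).eval t)).ncard : ℝ) := by
          rw [← nsmul_eq_mul]
          exact card_nsmul_le_sum _ _ _ h9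
      _ ≤ _ := sum_le_sum_of_subset_of_nonneg hGs fun _ _ _ => Nat.cast_nonneg _
  · -- the upper bound
    refine le_trans (sum_le_sum fun t ht => ?_) h3
    have ht' := (mem_filter.1 ht).2
    exact lf_le hcov (ht' 0) (ht' 1) (hne t ht')

end

end Pool.Agent.TH841.FD
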