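import Mathlib
import Pool.Agent.TH841.FD.Main
import Pool.Agent.W313.BMX.Final

/-!
# Project FD: the Brauer-Manin obstruction given by the double coverings
-/

set_option autoImplicit false

namespace Pool.Agent.TH841.FD

open Finset

open Pool.Agent.TH841.NO (SQ Qu)

open Pool.Agent.W313.BMX (Splits Fam ram IsTest hexact hrec diag factPrime)

/-- a point of the quartic -/
structure Pnt (A B b₁ : ℤ) (K : Type) [Field K] where
  /-- first coordinate -/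
  M : K
  /-- second coordinate -/
  e : K
  /-- third coordinate -/
  N : K
  ne : M ≠ 0 ∨ e ≠ 0
  eq : N ^ 2 = (b₁ : K) * M ^ 4 + ((-(A + B) : ℤ) : K) * M ^ 2 * e ^ 2 +
    ((A * B / b₁ : ℤ) : K) * e ^ 4

variable {A B b₁ : ℤ}

open Classical in
/-- the value of the function `b₁ M² - A e²` modulo squares -/
noncomputable def val {K : Type} [Field K] (P : Pnt A B b₁ K) : K :=
  if (b₁ : K) * P.M ^ 2 - (A : K) * P.e ^ 2 ≠ 0 then (b₁ : K) * P.M ^ 2 - (A : K) * P.e ^ 2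
  else (b₁ : K) * ((b₁ : K) * P.M ^ 2 - (B : K) * P.e ^ 2)

/-- adelic points -/
structure Adel (A B b₁ : ℤ) where
  /-- the real component -/
  re : Pnt A B b₁ ℝ
  /-- the `p`-adic components -/
  pa : ∀ p : Nat.Primes, Pnt A B b₁ ℚ_[(p : ℕ)]

/-- the values at the components of an adelic point -/
noncomputable def vals (P : Adel A B b₁) : Fam := ⟨val P.re, fun p => val (P.pa p)⟩

/-! ### algebra -/

lemma key {K : Type} [Field K] [CharZero K] (hb : b₁ ≠ 0) (hd : b₁ ∣ A * B) (P : Pnt A B b₁ K) :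
    (b₁ : K) * P.N ^ 2 = ((b₁ : K) * P.M ^ 2 - (A : K) * P.e ^ 2) *
      ((b₁ : K) * P.M ^ 2 - (B : K) * P.e ^ 2) := by
  obtain ⟨q, hq⟩ := hd
  have h := P.eq
  rw [hq, Int.mul_ediv_cancel_left _ hb] at h
  have hqq : (A : K) * B = b₁ * q := by exact_mod_cast hq
  rw [h]
  push_cast
  linear_combination (-P.e ^ 4) * hqq

lemma w_ne {K : Type} [Field K] [CharZero K] (hb : b₁ ≠ 0) (hAB : A ≠ B) (P : Pnt A B b₁ K)
    (hu : (b₁ : K) * P.M ^ 2 - (A : K) * P.e ^ 2 = 0) :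
    (b₁ : K) * P.M ^ 2 - (B : K) * P.e ^ 2 ≠ 0 := by
  have hbK : (b₁ : K) ≠ 0 := by exact_mod_cast hb
  have hABK : (A : K) - B ≠ 0 := sub_ne_zero.2 (by exact_mod_cast hAB)
  have he : P.e ≠ 0 := by
    intro he
    rw [he] at hu
    have h1 : (b₁ : K) * P.M ^ 2 = 0 := by linear_combination hu
    have h2 : P.M = 0 := by
      rcases mul_eq_zero.1 h1 with h3 | h3
      · exact absurd h3 hbK
      · exact pow_eq_zero_iff two_ne_zero |>.1 h3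
    rcases P.ne with h3 | h3
    · exact h3 h2
    · exact h3 he
  have h1 : (b₁ : K) * P.M ^ 2 - (B : K) * P.e ^ 2 = ((A : K) - B) * P.e ^ 2 := by
    linear_combination hu
  rw [h1]
  exact mul_ne_zero hABK (pow_ne_zero 2 he)

lemma val_ne {K : Type} [Field K] [CharZero K] (hb : b₁ ≠ 0) (hAB : A ≠ B) (P : Pnt A B b₁ K) :
    val P ≠ 0 := by
  have hbK : (b₁ : K) ≠ 0 := by exact_mod_cast hb
  unfold val
  split_ifs with h
  · exact h
  · exact mul_ne_zero hbK (w_ne hb hAB P (not_not.1 h))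

lemma cov_of_val {K : Type} [Field K] [CharZero K] (hb : b₁ ≠ 0) (hd : b₁ ∣ A * B)
    (P : Pnt A B b₁ K) {n : ℤ} (hn : n ≠ 0) (h : IsSquare (val P * n)) : Cov K A B b₁ n := by
  have hbK : (b₁ : K) ≠ 0 := by exact_mod_cast hb
  have hnK : (n : K) ≠ 0 := by exact_mod_cast hn
  obtain ⟨r, hr⟩ := h
  unfold val at hr
  split_ifs at hr with hu
  · have hr0 : r ≠ 0 := by
      rintro rfl
      rw [mul_zero] at hr
      exact mul_ne_zero hu hnK hr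
    refine ⟨P.M, P.e, r / n, P.N / r, P.ne, ?_, ?_⟩
    · field_simp
      linear_combination hr
    · have h1 := key hb hd P
      have h2 : (b₁ : K) * P.M ^ 2 - (A : K) * P.e ^ 2 = r ^ 2 / n := by
        rw [eq_div_iff hnK]
        linear_combination hr
      rw [h2] at h1
      have h3 : (b₁ : K) * P.M ^ 2 - (B : K) * P.e ^ 2 = b₁ * P.N ^ 2 * n / r ^ 2 := by
        rw [eq_div_iff (pow_ne_zero 2 hr0)]
        have h4 : (b₁ : K) * P.N ^ 2 * n = r ^ 2 / n * ((b₁ : K) * P.M ^ 2 - (B : K) * P.e ^ 2) * n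
          := by rw [h1]
        rw [h4]
        field_simp
      rw [h3]
      field_simp
  · have hu' := not_not.1 hu
    refine ⟨P.M, P.e, 0, r / (b₁ * n), P.ne, ?_, ?_⟩
    · rw [hu']
      ring
    · field_simp
      linear_combination hr

lemma val_of_cov {K : Type} [Field K] [CharZero K] (hb : b₁ ≠ 0) (hd : b₁ ∣ A * B)
    {d : ℤ} (hd0 : d ≠ 0) (h : Cov K A B b₁ d) :
    ∃ P : Pnt A B b₁ K, IsSquare (val P * d) := by
  have hbK : (b₁ : K) ≠ 0 := by exact_mod_cast hb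
  have hdK : (d : K) ≠ 0 := by exact_mod_cast hd0
  obtain ⟨M, e, x, y, hMe, h1, h2⟩ := h
  have heq : (d * x * y) ^ 2 = (b₁ : K) * M ^ 4 + ((-(A + B) : ℤ) : K) * M ^ 2 * e ^ 2 +
      ((A * B / b₁ : ℤ) : K) * e ^ 4 := by
    obtain ⟨q, hq⟩ := hd
    rw [hq, Int.mul_ediv_cancel_left _ hb]
    have hqq : (A : K) * B = b₁ * q := by exact_mod_cast hq
    apply mul_left_cancel₀ hbK
    push_cast
    linear_combination (-(b₁ : K) * M ^ 2 + B * e ^ 2) * h1 - (d : K) * x ^ 2 * h2 + e ^ 4 * hqq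
  refine ⟨⟨M, e, d * x * y, hMe, heq⟩, ?_⟩
  unfold val
  split_ifs with hu
  · exact ⟨d * x, by simp only; rw [h1]; ring⟩
  · exact ⟨b₁ * d * y, by simp only; rw [h2]; ring⟩

/-! ### good primes -/

lemma rep_unit {p : ℕ} [Fact p.Prime] {u : ℚ_[p]} (hu : ‖u‖ = 1) :
    ∃ (m : ℤ) (c : ℚ_[p]), ¬ (p : ℤ) ∣ m ∧ c ≠ 0 ∧ u = m * c ^ 2 := by
  obtain ⟨m, z, hm, hz, hmz⟩ := Pool.Agent.W310.BMX.unit_rep (⟨u, hu.le⟩ : ℤ_[p]) hu
  refine ⟨m, z, hm, fun h => hz (Subtype.ext h), ?_⟩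
  have := congrArg (fun x : ℤ_[p] => (x : ℚ_[p])) hmz
  push_cast at this
  exact this

lemma norm_int_one {p : ℕ} [Fact p.Prime] {m : ℤ} (h : ¬ (p : ℤ) ∣ m) : ‖(m : ℚ_[p])‖ = 1 := by
  have h1 := Padic.norm_int_le_one (p := p) m
  have h2 : ¬ ‖(m : ℚ_[p])‖ < 1 := fun h' => h ((Padic.norm_intCast_lt_one_iff).1 h')
  exact le_antisymm h1 (not_lt.1 h2)

/-- a scaled solution -/
lemma rep_scaled {p : ℕ} [Fact p.Prime] (hb : ¬ (p : ℤ) ∣ b₁) (hABp : ¬ (p : ℤ) ∣ A - B)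
    {M e N : ℚ_[p]} (hM : ‖M‖ ≤ 1) (he : ‖e‖ ≤ 1) (hMe : ‖M‖ = 1 ∨ ‖e‖ = 1)
    (hk : (b₁ : ℚ_[p]) * N ^ 2 = ((b₁ : ℚ_[p]) * M ^ 2 - (A : ℚ_[p]) * e ^ 2) *
      ((b₁ : ℚ_[p]) * M ^ 2 - (B : ℚ_[p]) * e ^ 2)) :
    ((b₁ : ℚ_[p]) * M ^ 2 - (A : ℚ_[p]) * e ^ 2 ≠ 0 → ∃ (m : ℤ) (c : ℚ_[p]), ¬ (p : ℤ) ∣ m ∧
      c ≠ 0 ∧ (b₁ : ℚ_[p]) * M ^ 2 - (A : ℚ_[p]) * e ^ 2 = m * c ^ 2) ∧
    ((b₁ : ℚ_[p]) * M ^ 2 - (A : ℚ_[p]) * e ^ 2 = 0 → ∃ (m : ℤ) (c : ℚ_[p]), ¬ (p : ℤ) ∣ m ∧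
      c ≠ 0 ∧ (b₁ : ℚ_[p]) * ((b₁ : ℚ_[p]) * M ^ 2 - (B : ℚ_[p]) * e ^ 2) = m * c ^ 2) := by
  have hb1 := norm_int_one hb
  have hAB1 := norm_int_one hABp
  have hb0 : (b₁ : ℚ_[p]) ≠ 0 := by
    intro h
    rw [h, norm_zero] at hb1
    exact zero_ne_one hb1
  set u := (b₁ : ℚ_[p]) * M ^ 2 - (A : ℚ_[p]) * e ^ 2 with hu
  set w := (b₁ : ℚ_[p]) * M ^ 2 - (B : ℚ_[p]) * e ^ 2 with hw
  have int_le : ∀ (m : ℤ) (z : ℚ_[p]), ‖z‖ ≤ 1 → ‖(m : ℚ_[p]) * z ^ 2‖ ≤ 1 := by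
    intro m z hz
    rw [norm_mul, norm_pow]
    exact mul_le_one₀ (Padic.norm_int_le_one m) (by positivity) (pow_le_one₀ (norm_nonneg _) hz)
  have hu1 : ‖u‖ ≤ 1 := by
    rw [hu, sub_eq_add_neg]
    refine (Padic.nonarchimedean _ _).trans (max_le (int_le _ _ hM) ?_)
    rw [norm_neg]
    exact int_le _ _ he
  have hw1 : ‖w‖ ≤ 1 := by
    rw [hw, sub_eq_add_neg]
    refine (Padic.nonarchimedean _ _).trans (max_le (int_le _ _ hM) ?_)
    rw [norm_neg]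
    exact int_le _ _ he
  have huw : ‖u‖ = 1 ∨ ‖w‖ = 1 := by
    by_contra hcon
    push Not at hcon
    have hu2 : ‖u‖ < 1 := lt_of_le_of_ne hu1 hcon.1
    have hw2 : ‖w‖ < 1 := lt_of_le_of_ne hw1 hcon.2
    have he2 : ‖e‖ < 1 := by
      have h1 : ((A - B : ℤ) : ℚ_[p]) * e ^ 2 = w + -u := by
        rw [hu, hw]
        push_cast
        ring
      have h2 : ‖((A - B : ℤ) : ℚ_[p]) * e ^ 2‖ < 1 := by
        rw [h1]
        refine (Padic.nonarchimedean _ _).trans_lt (max_lt hw2 ?_)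
        rw [norm_neg]
        exact hu2
      rw [norm_mul, hAB1, one_mul, norm_pow] at h2
      by_contra h'
      have h3 : ‖e‖ = 1 := le_antisymm he (not_lt.1 h')
      rw [h3, one_pow] at h2
      exact lt_irrefl _ h2
    have hM2 : ‖M‖ = 1 := by
      rcases hMe with h | h
      · exact h
      · exact absurd h he2.ne
    have h1 : (b₁ : ℚ_[p]) * M ^ 2 = u + (A : ℚ_[p]) * e ^ 2 := by
      rw [hu]
      ring
    have h2 : ‖(b₁ : ℚ_[p]) * M ^ 2‖ < 1 := by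
      rw [h1]
      refine (Padic.nonarchimedean _ _).trans_lt (max_lt hu2 ?_)
      rw [norm_mul, norm_pow]
      have h3 : ‖e‖ ^ 2 < 1 := pow_lt_one₀ (norm_nonneg _) he2 two_ne_zero
      calc ‖(A : ℚ_[p])‖ * ‖e‖ ^ 2 ≤ 1 * ‖e‖ ^ 2 :=
            mul_le_mul_of_nonneg_right (Padic.norm_int_le_one A) (by positivity)
        _ < 1 := by rw [one_mul]; exact h3
    rw [norm_mul, hb1, norm_pow, hM2] at h2
    norm_num at h2
  have hbw : ‖w‖ = 1 → ∃ (m : ℤ) (c : ℚ_[p]), ¬ (p : ℤ) ∣ m ∧ c ≠ 0 ∧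
      (b₁ : ℚ_[p]) * w = m * c ^ 2 := fun h => rep_unit (by rw [norm_mul, hb1, h, one_mul])
  constructor
  · intro hu0
    rcases huw with h | h
    · exact rep_unit h
    · obtain ⟨m, c, hm, hc, hmc⟩ := hbw h
      have hw0 : w ≠ 0 := by
        intro h'
        rw [h', norm_zero] at h
        exact zero_ne_one h
      have hN : N ≠ 0 := by
        intro hN
        rw [hN] at hk
        have : u * w = 0 := by linear_combination -hk
        rcases mul_eq_zero.1 this with h1 | h1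
        · exact hu0 h1
        · exact hw0 h1
      refine ⟨m, c * (N / w), hm, mul_ne_zero hc (div_ne_zero hN hw0), ?_⟩
      have h1 : u = (b₁ * w) * (N / w) ^ 2 := by
        field_simp
        linear_combination -hk
      rw [h1, hmc]
      ring
  · intro hu0
    rcases huw with h | h
    · rw [hu0, norm_zero] at h
      exact absurd h zero_ne_one
    · exact hbw h

theorem good {p : ℕ} [Fact p.Prime] (hb0 : b₁ ≠ 0) (hd : b₁ ∣ A * B) (hb : ¬ (p : ℤ) ∣ b₁)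
    (hABp : ¬ (p : ℤ) ∣ A - B) (P : Pnt A B b₁ ℚ_[p]) :
    ∃ (m : ℤ) (c : ℚ_[p]), ¬ (p : ℤ) ∣ m ∧ c ≠ 0 ∧ val P = m * c ^ 2 := by
  obtain ⟨s, hs0, hM, he, hMe⟩ : ∃ s : ℚ_[p], s ≠ 0 ∧ ‖P.M / s‖ ≤ 1 ∧ ‖P.e / s‖ ≤ 1 ∧
      (‖P.M / s‖ = 1 ∨ ‖P.e / s‖ = 1) := by
    rcases le_total ‖P.M‖ ‖P.e‖ with h | h
    · have h0 : P.e ≠ 0 := by
        intro h0
        rw [h0, norm_zero] at h
        have h1 : P.M = 0 := norm_eq_zero.1 (le_antisymm h (norm_nonneg _))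
        rcases P.ne with h2 | h2
        · exact h2 h1
        · exact h2 h0
      refine ⟨P.e, h0, ?_, ?_, Or.inr ?_⟩
      · rw [norm_div]
        exact div_le_one_of_le₀ h (norm_nonneg _)
      · rw [div_self h0, norm_one]
      · rw [div_self h0, norm_one]
    · have h0 : P.M ≠ 0 := by
        intro h0
        rw [h0, norm_zero] at h
        have h1 : P.e = 0 := norm_eq_zero.1 (le_antisymm h (norm_nonneg _))
        rcases P.ne with h2 | h2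
        · exact h2 h0
        · exact h2 h1
      refine ⟨P.M, h0, ?_, ?_, Or.inl ?_⟩
      · rw [div_self h0, norm_one]
      · rw [norm_div]
        exact div_le_one_of_le₀ h (norm_nonneg _)
      · rw [div_self h0, norm_one]
  have hk := key hb0 hd P
  have hk' : (b₁ : ℚ_[p]) * (P.N / s ^ 2) ^ 2 =
      ((b₁ : ℚ_[p]) * (P.M / s) ^ 2 - (A : ℚ_[p]) * (P.e / s) ^ 2) *
      ((b₁ : ℚ_[p]) * (P.M / s) ^ 2 - (B : ℚ_[p]) * (P.e / s) ^ 2) := by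
    field_simp
    linear_combination hk
  obtain ⟨g1, g2⟩ := rep_scaled hb hABp hM he hMe hk'
  have e1 : (b₁ : ℚ_[p]) * P.M ^ 2 - (A : ℚ_[p]) * P.e ^ 2 =
      ((b₁ : ℚ_[p]) * (P.M / s) ^ 2 - (A : ℚ_[p]) * (P.e / s) ^ 2) * s ^ 2 := by
    field_simp
  have e2 : (b₁ : ℚ_[p]) * P.M ^ 2 - (B : ℚ_[p]) * P.e ^ 2 =
      ((b₁ : ℚ_[p]) * (P.M / s) ^ 2 - (B : ℚ_[p]) * (P.e / s) ^ 2) * s ^ 2 := by
    field_simp
  unfold val
  split_ifs with hu
  · have hu' : (b₁ : ℚ_[p]) * (P.M / s) ^ 2 - (A : ℚ_[p]) * (P.e / s) ^ 2 ≠ 0 := by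
      intro h
      rw [e1, h, zero_mul] at hu
      exact hu rfl
    obtain ⟨m, c, hm, hc, hmc⟩ := g1 hu'
    refine ⟨m, c * s, hm, mul_ne_zero hc hs0, ?_⟩
    rw [e1, hmc]
    ring
  · have hu' : (b₁ : ℚ_[p]) * (P.M / s) ^ 2 - (A : ℚ_[p]) * (P.e / s) ^ 2 = 0 := by
      have h1 := not_not.1 hu
      rw [e1] at h1
      rcases mul_eq_zero.1 h1 with h2 | h2
      · exact h2
      · exact absurd h2 (pow_ne_zero 2 hs0)
    obtain ⟨m, c, hm, hc, hmc⟩ := g2 hu'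
    refine ⟨m, c * s, hm, mul_ne_zero hc hs0, ?_⟩
    rw [e2]
    linear_combination s ^ 2 * hmc

/-! ### orthogonality -/

/-- the orthogonality to the classes `(b₁ M² - A e², ε)` -/
def Orth (P : Adel A B b₁) : Prop := ∀ ε : ℤ, IsTest ε → Even (ram (vals P) ε).ncard

theorem fin_good (hb : b₁ ≠ 0) (hAB : A ≠ B) (hd : b₁ ∣ A * B) {z : ℕ}
    (hz : b₁.natAbs + (A - B).natAbs ≤ z) (P : Adel A B b₁) (p : Nat.Primes) (hp : z < (p : ℕ)) :
    ∃ (m : ℤ) (c : ℚ_[(p : ℕ)]), ¬ ((p : ℕ) : ℤ) ∣ m ∧ c ≠ 0 ∧ val (P.pa p) = m * c ^ 2 := by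
  have hdvd : ∀ m : ℤ, m ≠ 0 → m.natAbs < (p : ℕ) → ¬ ((p : ℕ) : ℤ) ∣ m := by
    intro m hm hlt hdv
    have := Nat.le_of_dvd (Int.natAbs_pos.2 hm) (Int.natCast_dvd.1 hdv)
    omega
  exact good hb hd (hdvd b₁ hb (by omega)) (hdvd (A - B) (sub_ne_zero.2 hAB) (by omega)) (P.pa p)

theorem cov_of_orth (hb : b₁ ≠ 0) (hAB : A ≠ B) (hd : b₁ ∣ A * B) (P : Adel A B b₁)
    (h : Orth P) : ∃ d : ℤ, Squarefree d ∧ Cov ℝ A B b₁ d ∧
      ∀ (p : ℕ) [Fact p.Prime], Cov ℚ_[p] A B b₁ d := by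
  have hfin : {p : Nat.Primes | ∀ (m : ℤ) (c : ℚ_[(p : ℕ)]), ¬ ((p : ℕ) : ℤ) ∣ m →
      (vals P).pa p ≠ m * c ^ 2}.Finite := by
    have h1 : {p : Nat.Primes | (p : ℕ) ≤ b₁.natAbs + (A - B).natAbs}.Finite :=
      (Set.finite_Iic _).preimage (Subtype.val_injective.injOn)
    refine h1.subset fun p hp => ?_
    by_contra hpz
    have hpz' : b₁.natAbs + (A - B).natAbs < (p : ℕ) := not_le.1 hpz
    obtain ⟨m, c, hm, -, hmc⟩ := fin_good hb hAB hd le_rfl P p hpz'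
    exact hp m c hm hmc
  obtain ⟨n, hn1, hn2, hn3⟩ := hexact (vals P) (val_ne hb hAB P.re)
    (fun p => val_ne hb hAB (P.pa p)) hfin (fun ε hε _ => h ε hε)
  refine ⟨n, hn1, cov_of_val hb hd P.re hn1.ne_zero hn2, fun p hp => ?_⟩
  exact cov_of_val hb hd (P.pa ⟨p, hp.out⟩) hn1.ne_zero (hn3 ⟨p, hp.out⟩)

/-- the number of the places with a nontrivial symbol is finite -/
theorem ram_fin (hb : b₁ ≠ 0) (hAB : A ≠ B) (hd : b₁ ∣ A * B) (P : Adel A B b₁) (ε : ℤ)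
    (hε : ε ≠ 0) : (ram (vals P) ε).Finite := by
  have h1 : {p : Nat.Primes | (p : ℕ) ≤ b₁.natAbs + (A - B).natAbs + 2 + ε.natAbs}.Finite :=
    (Set.finite_Iic _).preimage (Subtype.val_injective.injOn)
  apply ((h1.image some).insert none).subset
  intro v hv
  match v with
  | none => exact Or.inl rfl
  | some p =>
    refine Or.inr ⟨p, ?_, rfl⟩
    by_contra hpz
    have hpz' : b₁.natAbs + (A - B).natAbs + 2 + ε.natAbs < (p : ℕ) := not_le.1 hpz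
    obtain ⟨m, c, hm, hc, hmc⟩ := fin_good hb hAB hd (by omega) P p hpz'
    apply hv
    change Splits (val (P.pa p)) _
    rw [hmc]
    have hdvd : ¬ ((p : ℕ) : ℤ) ∣ ε := by
      intro hdv
      have := Nat.le_of_dvd (Int.natAbs_pos.2 hε) (Int.natCast_dvd.1 hdv)
      omega
    exact (Pool.Agent.W313.BMX.splits_mul_sq hc).2
      (Pool.Agent.W335.BMX.odd2 (p : ℕ) (by omega) m ε hm hdvd)

/-- squares times the values of an integer -/
lemma splits_of_sq {K : Type} [Field K] {a n ε : K} (ha : a ≠ 0) (hn : n ≠ 0)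
    (h : IsSquare (a * n)) : Splits a ε ↔ Splits n ε := by
  obtain ⟨r, hr⟩ := h
  have hr0 : r ≠ 0 := by
    rintro rfl
    rw [mul_zero] at hr
    exact mul_ne_zero ha hn hr
  have h1 : a = n * (r / n) ^ 2 := by
    field_simp
    linear_combination hr
  rw [h1]
  exact Pool.Agent.W313.BMX.splits_mul_sq (div_ne_zero hr0 hn)

/-- conversely an everywhere locally solvable covering gives an orthogonal adelic point -/
theorem orth_of_cov (hb : b₁ ≠ 0) (hAB : A ≠ B) (hd : b₁ ∣ A * B)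
    (h : ∃ d : ℤ, Squarefree d ∧ Cov ℝ A B b₁ d ∧
      ∀ (p : ℕ) [Fact p.Prime], Cov ℚ_[p] A B b₁ d) : ∃ P : Adel A B b₁, Orth P := by
  obtain ⟨d, hd1, hd2, hd3⟩ := h
  have hd0 := hd1.ne_zero
  obtain ⟨P0, hP0⟩ := val_of_cov hb hd hd0 hd2
  choose Pp hPp using fun p : Nat.Primes => val_of_cov hb hd hd0 (hd3 (p : ℕ))
  refine ⟨⟨P0, Pp⟩, fun ε hε => ?_⟩
  have h1 : ram (vals ⟨P0, Pp⟩) ε = ram (diag d) ε := by
    ext v
    match v with
    | none =>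
      change ¬ Splits (val P0) (ε : ℝ) ↔ ¬ Splits (d : ℝ) (ε : ℝ)
      rw [splits_of_sq (val_ne hb hAB P0) (by exact_mod_cast hd0) hP0]
    | some p =>
      change ¬ Splits (val (Pp p)) (ε : ℚ_[(p : ℕ)]) ↔
        ¬ Splits (d : ℚ_[(p : ℕ)]) (ε : ℚ_[(p : ℕ)])
      rw [splits_of_sq (val_ne hb hAB (Pp p)) (by exact_mod_cast hd0) (hPp p)]
  rw [h1]
  exact (hrec d hd1 ε hε).2

end Pool.Agent.TH841.FD
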