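import Mathlib
import Pool.Agent.TH841.FD.BM

/-!
# Project FD: rational points are orthogonal
-/

set_option autoImplicit false

namespace Pool.Agent.TH841.FD

open Finset

open Pool.Agent.TH841.NO (SQ Qu)

open Pool.Agent.W313.BMX (Splits Fam ram IsTest hexact hrec diag factPrime)

variable {A B b₁ : ℤ}

/-- the image of a rational point -/
def Pnt.cast (P : Pnt A B b₁ ℚ) (K : Type) [Field K] [CharZero K] : Pnt A B b₁ K where
  M := P.M
  e := P.e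
  N := P.N
  ne := by
    rcases P.ne with h | h
    · exact Or.inl (by exact_mod_cast h)
    · exact Or.inr (by exact_mod_cast h)
  eq := by
    have := congrArg (fun q : ℚ => (q : K)) P.eq
    push_cast at this ⊢
    exact this

lemma val_cast (P : Pnt A B b₁ ℚ) (K : Type) [Field K] [CharZero K] :
    val (P.cast K) = ((val P : ℚ) : K) := by
  have e1 : (b₁ : K) * ((P.M : ℚ) : K) ^ 2 - (A : K) * ((P.e : ℚ) : K) ^ 2 =
      (((b₁ : ℚ) * P.M ^ 2 - (A : ℚ) * P.e ^ 2 : ℚ) : K) := by push_cast; ring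
  have e2 : (b₁ : K) * ((b₁ : K) * ((P.M : ℚ) : K) ^ 2 - (B : K) * ((P.e : ℚ) : K) ^ 2) =
      (((b₁ : ℚ) * ((b₁ : ℚ) * P.M ^ 2 - (B : ℚ) * P.e ^ 2) : ℚ) : K) := by push_cast; ring
  by_cases h : (b₁ : ℚ) * P.M ^ 2 - (A : ℚ) * P.e ^ 2 = 0
  · have hK : (b₁ : K) * ((P.M : ℚ) : K) ^ 2 - (A : K) * ((P.e : ℚ) : K) ^ 2 = 0 := by
      rw [e1, h, Rat.cast_zero]
    have l1 : val (P.cast K) =
        (b₁ : K) * ((b₁ : K) * ((P.M : ℚ) : K) ^ 2 - (B : K) * ((P.e : ℚ) : K) ^ 2) :=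
      if_neg (fun h' => h' hK)
    have l2 : val P = (b₁ : ℚ) * ((b₁ : ℚ) * P.M ^ 2 - (B : ℚ) * P.e ^ 2) :=
      if_neg (fun h' => h' h)
    rw [l1, l2]
    exact e2
  · have hK : (b₁ : K) * ((P.M : ℚ) : K) ^ 2 - (A : K) * ((P.e : ℚ) : K) ^ 2 ≠ 0 := by
      rw [e1]
      exact_mod_cast h
    have l1 : val (P.cast K) = (b₁ : K) * ((P.M : ℚ) : K) ^ 2 - (A : K) * ((P.e : ℚ) : K) ^ 2 :=
      if_pos hK
    have l2 : val P = (b₁ : ℚ) * P.M ^ 2 - (A : ℚ) * P.e ^ 2 := if_pos h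
    rw [l1, l2]
    exact e1

/-- the adelic point of a rational point -/
noncomputable def Pnt.adel (P : Pnt A B b₁ ℚ) : Adel A B b₁ := ⟨P.cast ℝ, fun p => P.cast ℚ_[(p : ℕ)]⟩

theorem orth_rat (hb : b₁ ≠ 0) (hAB : A ≠ B) (P : Pnt A B b₁ ℚ) : Orth P.adel := by
  obtain ⟨d, x, hd, hx, hdx⟩ := sqf_part (val_ne hb hAB P)
  have hd0 := hd.ne_zero
  intro ε hε
  have h1 : ram (vals P.adel) ε = ram (diag d) ε := by
    have key : ∀ (K : Type) [Field K] [CharZero K], IsSquare (val (P.cast K) * (d : K)) := by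
      intro K _ _
      rw [val_cast, hdx]
      refine ⟨d * x, ?_⟩
      push_cast
      ring
    ext v
    match v with
    | none =>
      change ¬ Splits (val (P.cast ℝ)) (ε : ℝ) ↔ ¬ Splits (d : ℝ) (ε : ℝ)
      rw [splits_of_sq (val_ne hb hAB _) (by exact_mod_cast hd0) (key ℝ)]
    | some p =>
      change ¬ Splits (val (P.cast ℚ_[(p : ℕ)])) (ε : ℚ_[(p : ℕ)]) ↔
        ¬ Splits (d : ℚ_[(p : ℕ)]) (ε : ℚ_[(p : ℕ)])
      rw [splits_of_sq (val_ne hb hAB _) (by exact_mod_cast hd0) (key ℚ_[(p : ℕ)])]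
  rw [h1]
  exact (hrec d hd ε hε).2

end Pool.Agent.TH841.FD
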