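import Mathlib
import Pool.Agent.TH841.FD.Stm

/-!
# Project FD: at least a quarter of the pairs in a short square are coprime

The union bound over the common prime factors: the primes `p ≤ 100`, the primes `100 < p ≤ X`, and
the primes `p > X`, of which at most `L + 2` divide a nonzero integer of size `X ^ (L + 2)`.
-/

set_option autoImplicit false

namespace Pool.Agent.TH841.FD.COPRf

open Finset

theorem cnt (N : ℤ) (X p : ℕ) (hp : 0 < p) :
    (((Icc 1 X).filter (fun t : ℕ => (p : ℤ) ∣ N + (t : ℤ))).card : ℝ) ≤ (X : ℝ) / p + 1 := by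
  have h1 : ((Icc 1 X).filter (fun t : ℕ => (p : ℤ) ∣ N + (t : ℤ))).card ≤
      ((Ioc (0 : ℤ) (X : ℤ)).filter (fun x => x ≡ -N [ZMOD (p : ℤ)])).card := by
    apply card_le_card_of_injOn (fun t : ℕ => (t : ℤ))
    · intro t ht
      rw [mem_coe, mem_filter, mem_Icc] at ht
      rw [mem_coe, mem_filter, mem_Ioc]
      refine ⟨⟨Int.natCast_pos.mpr ht.1.1, Int.ofNat_le.mpr ht.1.2⟩, ?_⟩
      rw [Int.modEq_iff_dvd]
      obtain ⟨c, hc⟩ := ht.2
      exact ⟨-c, by linear_combination -hc⟩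
    · intro a _ b _ hab
      simpa using hab
  have hp' : (0 : ℤ) < (p : ℤ) := by exact_mod_cast hp
  have h2 := Int.Ioc_filter_modEq_card (0 : ℤ) (X : ℤ) hp' (-N)
  have h3 : ((((Ioc (0 : ℤ) (X : ℤ)).filter (fun x => x ≡ -N [ZMOD (p : ℤ)])).card : ℤ) : ℚ) ≤
      (X : ℚ) / p + 1 := by
    rw [h2]
    push_cast
    apply max_le
    · have f1 := Int.floor_le (((X : ℚ) - -(N : ℚ)) / (p : ℚ))
      have f2 := Int.lt_floor_add_one ((0 - -(N : ℚ)) / (p : ℚ))
      have f3 : ((X : ℚ) - -(N : ℚ)) / (p : ℚ) - (0 - -(N : ℚ)) / (p : ℚ) = X / p := by ring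
      linarith
    · positivity
  have h4 : ((((Ioc (0 : ℤ) (X : ℤ)).filter (fun x => x ≡ -N [ZMOD (p : ℤ)])).card : ℕ) : ℝ) ≤
      (X : ℝ) / p + 1 := by
    have : ((((Ioc (0 : ℤ) (X : ℤ)).filter (fun x => x ≡ -N [ZMOD (p : ℤ)])).card : ℕ) : ℚ) ≤
      (X : ℚ) / p + 1 := by exact_mod_cast h3
    have h5 : (((((Ioc (0 : ℤ) (X : ℤ)).filter
      (fun x => x ≡ -N [ZMOD (p : ℤ)])).card : ℕ) : ℚ) : ℝ) ≤ (((X : ℚ) / p + 1 : ℚ) : ℝ) := by
      exact_mod_cast this
    push_cast at h5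
    exact h5
  calc _ ≤ _ := by exact_mod_cast h1
    _ ≤ _ := h4

/-- the pairs both of whose entries are divisible by `p` -/
theorem cnt2 (N1 N2 : ℤ) (X p : ℕ) (hp : 0 < p) :
    (((Icc 1 X ×ˢ Icc 1 X).filter (fun t : ℕ × ℕ => (p : ℤ) ∣ N1 + (t.1 : ℤ) ∧
      (p : ℤ) ∣ N2 + (t.2 : ℤ))).card : ℝ) ≤ ((X : ℝ) / p + 1) ^ 2 := by
  have h : (Icc 1 X ×ˢ Icc 1 X).filter (fun t : ℕ × ℕ => (p : ℤ) ∣ N1 + (t.1 : ℤ) ∧
      (p : ℤ) ∣ N2 + (t.2 : ℤ)) = ((Icc 1 X).filter (fun t : ℕ => (p : ℤ) ∣ N1 + (t : ℤ))) ×ˢ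
        ((Icc 1 X).filter (fun t : ℕ => (p : ℤ) ∣ N2 + (t : ℤ))) := by
    ext ⟨a, b⟩
    simp only [mem_filter, mem_product]
    tauto
  rw [h, card_product]
  push_cast
  have h1 := cnt N1 X p hp
  have h2 := cnt N2 X p hp
  calc _ ≤ ((X : ℝ) / p + 1) * ((X : ℝ) / p + 1) := by gcongr
    _ = _ := by ring

theorem one_le (N : ℤ) (X p : ℕ) (hp : X < p) :
    ((Icc 1 X).filter (fun t : ℕ => (p : ℤ) ∣ N + (t : ℤ))).card ≤ 1 := by
  rw [card_le_one]
  intro a ha b hb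
  simp only [mem_filter, mem_Icc] at ha hb
  have h1 : (p : ℤ) ∣ (a : ℤ) - b := by
    have := dvd_sub ha.2 hb.2
    have e : N + (a : ℤ) - (N + b) = a - b := by ring
    rwa [e] at this
  have h2 : (a : ℤ) - b = 0 := by
    apply Int.eq_zero_of_abs_lt_dvd h1
    rw [abs_lt]
    constructor <;> omega
  omega

/-- the large primes dividing an integer -/
theorem large (a : ℤ) (ha : a ≠ 0) (X k : ℕ) (hX : 1 ≤ X) (h : a.natAbs ≤ X ^ k) :
    ((a.natAbs.primeFactors).filter (fun p => X < p)).card ≤ k := by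
  set S := (a.natAbs.primeFactors).filter (fun p => X < p) with hS
  have h0 : a.natAbs ≠ 0 := Int.natAbs_ne_zero.mpr ha
  have h1 : ∏ p ∈ S, p ∣ a.natAbs := by
    have h2 : ∏ p ∈ S, p ∣ ∏ p ∈ a.natAbs.primeFactors, p :=
      prod_dvd_prod_of_subset _ _ _ (filter_subset _ _)
    exact h2.trans (Nat.prod_primeFactors_dvd _)
  have h2 : ∏ p ∈ S, p ≤ X ^ k := (Nat.le_of_dvd (Nat.pos_of_ne_zero h0) h1).trans h
  have h3 : (X + 1) ^ S.card ≤ ∏ p ∈ S, p := by
    rw [← prod_const]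
    apply prod_le_prod' 
    intro p hp
    have := (mem_filter.mp hp).2
    omega
  by_contra hk
  push Not at hk
  have h4 : X ^ k < (X + 1) ^ S.card := by
    calc X ^ k ≤ (X + 1) ^ k := Nat.pow_le_pow_left (by omega) k
      _ < (X + 1) ^ S.card := Nat.pow_lt_pow_right (by omega) hk
  omega

open Classical in
theorem largecount (N1 N2 : ℤ) (X k : ℕ) (hX : 1 ≤ X)
    (h : ∀ t ∈ Icc 1 X, (N1 + (t : ℤ)).natAbs ≤ X ^ k) :
    ((Icc 1 X ×ˢ Icc 1 X).filter (fun t : ℕ × ℕ => N1 + (t.1 : ℤ) ≠ 0 ∧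
      ∃ p : ℕ, p.Prime ∧ X < p ∧ (p : ℤ) ∣ N1 + (t.1 : ℤ) ∧ (p : ℤ) ∣ N2 + (t.2 : ℤ))).card ≤
      X * k := by
  set A := (Icc 1 X).filter (fun t : ℕ => N1 + (t : ℤ) ≠ 0) with hA
  have hsub : (Icc 1 X ×ˢ Icc 1 X).filter (fun t : ℕ × ℕ => N1 + (t.1 : ℤ) ≠ 0 ∧
      ∃ p : ℕ, p.Prime ∧ X < p ∧ (p : ℤ) ∣ N1 + (t.1 : ℤ) ∧ (p : ℤ) ∣ N2 + (t.2 : ℤ)) ⊆
      A.biUnion (fun t => (((N1 + (t : ℤ)).natAbs.primeFactors).filter (fun p => X < p)).biUnion
        (fun p => ((Icc 1 X).filter (fun s : ℕ => (p : ℤ) ∣ N2 + (s : ℤ))).image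
          (fun s => (t, s)))) := by
    rintro ⟨t, s⟩ hts
    simp only [mem_filter, mem_product] at hts
    obtain ⟨⟨ht, hs⟩, h0, p, hp, hXp, h1, h2⟩ := hts
    simp only [mem_biUnion, mem_image, mem_filter, hA]
    refine ⟨t, ⟨ht, h0⟩, p, ⟨?_, hXp⟩, s, ⟨hs, h2⟩, rfl⟩
    rw [Nat.mem_primeFactors]
    exact ⟨hp, Int.natCast_dvd.mp h1, Int.natAbs_ne_zero.mpr h0⟩
  refine (card_le_card hsub).trans ?_
  refine card_biUnion_le.trans ?_
  calc _ ≤ ∑ t ∈ A, k := by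
        apply sum_le_sum
        intro t ht
        refine card_biUnion_le.trans ?_
        calc _ ≤ ∑ p ∈ ((N1 + (t : ℤ)).natAbs.primeFactors).filter (fun p => X < p), 1 := by
              apply sum_le_sum
              intro p hp
              exact card_image_le.trans (one_le N2 X p (mem_filter.mp hp).2)
          _ = _ := by rw [sum_const, smul_eq_mul, mul_one]
          _ ≤ k := large _ (mem_filter.mp ht).2 X k hX (h t (mem_filter.mp ht).1)
    _ = A.card * k := by rw [sum_const, smul_eq_mul]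
    _ ≤ X * k := by
        apply Nat.mul_le_mul_right
        exact (card_filter_le _ _).trans (by simp)

theorem sm (X : ℕ) :
    ∑ p ∈ (Ioc 1 100).filter Nat.Prime, ((X : ℝ) / p + 1) ^ 2 ≤
      (1 / 4 + 1 / 9 + 1 / 25 + 1 / 6) * (X : ℝ) ^ 2 + 200 * X + 100 := by
  have hsub : (Ioc 1 100).filter Nat.Prime ⊆ ({2, 3, 5} : Finset ℕ) ∪ Ioc 6 100 := by
    intro p hp
    simp only [mem_filter, mem_Ioc, mem_union, mem_insert, mem_singleton] at hp ⊢
    obtain ⟨⟨h1, h2⟩, h3⟩ := hp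
    by_cases h6 : 6 < p
    · right; omega
    · left
      interval_cases p <;> first | omega | (exfalso; revert h3; norm_num)
  have h1 : ∑ p ∈ (Ioc 1 100).filter Nat.Prime, ((X : ℝ) / p + 1) ^ 2 ≤
      ∑ p ∈ (Ioc 1 100).filter Nat.Prime, ((X : ℝ) ^ 2 * ((p : ℝ) ^ 2)⁻¹ + (2 * X + 1)) := by
    apply sum_le_sum
    intro p hp
    have hp1 : (1 : ℝ) ≤ p := by
      have := (mem_Ioc.mp (mem_filter.mp hp).1).1
      exact_mod_cast this.le
    have e : ((X : ℝ) / p + 1) ^ 2 = (X : ℝ) ^ 2 * ((p : ℝ) ^ 2)⁻¹ + (2 * (X / p) + 1) := by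
      field_simp
      ring
    rw [e]
    have : (X : ℝ) / p ≤ X := div_le_self (by positivity) hp1
    linarith
  refine h1.trans ?_
  rw [sum_add_distrib, ← mul_sum, sum_const, nsmul_eq_mul]
  have h2 : ∑ p ∈ (Ioc 1 100).filter Nat.Prime, ((p : ℝ) ^ 2)⁻¹ ≤ 1 / 4 + 1 / 9 + 1 / 25 + 1 / 6 := by
    calc _ ≤ ∑ p ∈ ({2, 3, 5} : Finset ℕ) ∪ Ioc 6 100, ((p : ℝ) ^ 2)⁻¹ :=
          sum_le_sum_of_subset_of_nonneg hsub (fun _ _ _ => by positivity)
      _ = ∑ p ∈ ({2, 3, 5} : Finset ℕ), ((p : ℝ) ^ 2)⁻¹ +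
          ∑ p ∈ (Ioc 6 100 : Finset ℕ), ((p : ℝ) ^ 2)⁻¹ := by
          apply sum_union
          rw [Finset.disjoint_left]
          intro p hp
          simp only [mem_insert, mem_singleton, mem_Ioc] at hp ⊢
          omega
      _ ≤ (1 / 4 + 1 / 9 + 1 / 25) + 1 / 6 := by
          have := sum_Ioc_inv_sq_le_sub (α := ℝ) (k := 6) (n := 100) (by norm_num) (by norm_num)
          have h3 : ∑ p ∈ ({2, 3, 5} : Finset ℕ), ((p : ℝ) ^ 2)⁻¹ = 1 / 4 + 1 / 9 + 1 / 25 := by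
            rw [sum_insert (by decide), sum_insert (by decide), sum_singleton]
            norm_num
          rw [h3]
          norm_num at this ⊢
          linarith
      _ = _ := by ring
  have h3 : (((Ioc 1 100).filter Nat.Prime).card : ℝ) ≤ 100 := by
    have : ((Ioc 1 100).filter Nat.Prime).card ≤ 100 :=
      (card_filter_le _ _).trans (by simp)
    exact_mod_cast this
  have hX0 : (0 : ℝ) ≤ X := by positivity
  nlinarith [mul_le_mul_of_nonneg_left h2 (sq_nonneg (X : ℝ)),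
    mul_le_mul_of_nonneg_right h3 (show (0 : ℝ) ≤ 2 * X + 1 by positivity)]

theorem md (X : ℕ) (hX : 100 ≤ X) :
    ∑ p ∈ (Ioc 100 X).filter Nat.Prime, ((X : ℝ) / p + 1) ^ 2 ≤ 1 / 25 * (X : ℝ) ^ 2 := by
  calc _ ≤ ∑ p ∈ (Ioc 100 X).filter Nat.Prime, (4 * (X : ℝ) ^ 2) * ((p : ℝ) ^ 2)⁻¹ := by
        apply sum_le_sum
        intro p hp
        have hp1 := mem_Ioc.mp (mem_filter.mp hp).1
        have hp0 : (0 : ℝ) < p := by
          have : 0 < p := by omega
          exact_mod_cast this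
        have hp2 : (p : ℝ) ≤ X := by exact_mod_cast hp1.2
        have h1 : (1 : ℝ) ≤ X / p := by rwa [le_div_iff₀ hp0, one_mul]
        have e : (4 * (X : ℝ) ^ 2) * ((p : ℝ) ^ 2)⁻¹ = (2 * (X / p)) ^ 2 := by
          field_simp
          ring
        rw [e]
        apply pow_le_pow_left₀ (by positivity)
        linarith
    _ ≤ ∑ p ∈ Ioc 100 X, (4 * (X : ℝ) ^ 2) * ((p : ℝ) ^ 2)⁻¹ :=
        sum_le_sum_of_subset_of_nonneg (filter_subset _ _) (fun _ _ _ => by positivity)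
    _ = (4 * (X : ℝ) ^ 2) * ∑ p ∈ Ioc 100 X, ((p : ℝ) ^ 2)⁻¹ := by rw [mul_sum]
    _ ≤ (4 * (X : ℝ) ^ 2) * (1 / 100) := by
        have := sum_Ioc_inv_sq_le_sub (α := ℝ) (k := 100) (n := X) (by norm_num) hX
        have h2 : (0 : ℝ) ≤ (X : ℝ)⁻¹ := by positivity
        apply mul_le_mul_of_nonneg_left _ (by positivity)
        norm_num at this ⊢
        linarith
    _ = _ := by ring

theorem core (L : ℕ) (N1 N2 : ℤ) (X : ℕ) (hX : 8 * (L + 205) ≤ X) (h1 : N1.natAbs ≤ X ^ L)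
    (_h2 : N2.natAbs ≤ X ^ L) (G : Finset (ℕ × ℕ))
    (hG : ∀ t : ℕ × ℕ, t ∈ Icc 1 X ×ˢ Icc 1 X → IsCoprime (N1 + (t.1 : ℤ)) (N2 + (t.2 : ℤ)) →
      N1 + (t.1 : ℤ) ≠ 0 → N2 + (t.2 : ℤ) ≠ 0 → N1 + (t.1 : ℤ) ≠ N2 + (t.2 : ℤ) → t ∈ G) :
    (X : ℝ) ^ 2 / 4 ≤ (G.card : ℝ) := by
  classical
  set T := Icc 1 X ×ˢ Icc 1 X with hT
  set Z1 := T.filter (fun t : ℕ × ℕ => N1 + (t.1 : ℤ) = 0) with hZ1
  set Z2 := T.filter (fun t : ℕ × ℕ => N2 + (t.2 : ℤ) = 0) with hZ2
  set Z3 := T.filter (fun t : ℕ × ℕ => N1 + (t.1 : ℤ) = N2 + (t.2 : ℤ)) with hZ3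
  set B := fun p : ℕ => T.filter (fun t : ℕ × ℕ => (p : ℤ) ∣ N1 + (t.1 : ℤ) ∧
      (p : ℤ) ∣ N2 + (t.2 : ℤ)) with hB
  set LB := T.filter (fun t : ℕ × ℕ => N1 + (t.1 : ℤ) ≠ 0 ∧
      ∃ p : ℕ, p.Prime ∧ X < p ∧ (p : ℤ) ∣ N1 + (t.1 : ℤ) ∧ (p : ℤ) ∣ N2 + (t.2 : ℤ)) with hLB
  have hX1 : 1 ≤ X := by omega
  have hsub : T ⊆ G ∪ (Z1 ∪ (Z2 ∪ (Z3 ∪ (LB ∪ (((Ioc 1 100).filter Nat.Prime).biUnion B ∪
      ((Ioc 100 X).filter Nat.Prime).biUnion B))))) := by
    intro t ht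
    by_cases c1 : N1 + (t.1 : ℤ) = 0
    · exact mem_union_right _ (mem_union_left _ (mem_filter.mpr ⟨ht, c1⟩))
    by_cases c2 : N2 + (t.2 : ℤ) = 0
    · exact mem_union_right _ (mem_union_right _ (mem_union_left _ (mem_filter.mpr ⟨ht, c2⟩)))
    by_cases c3 : N1 + (t.1 : ℤ) = N2 + (t.2 : ℤ)
    · exact mem_union_right _ (mem_union_right _ (mem_union_right _ (mem_union_left _ (mem_filter.mpr ⟨ht, c3⟩))))
    by_cases c4 : IsCoprime (N1 + (t.1 : ℤ)) (N2 + (t.2 : ℤ))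
    · exact mem_union_left _ (hG t ht c4 c1 c2 c3)
    rw [Int.isCoprime_iff_gcd_eq_one] at c4
    obtain ⟨p, hp, hpd⟩ := Nat.exists_prime_and_dvd c4
    have d1 : (p : ℤ) ∣ N1 + (t.1 : ℤ) :=
      (Int.natCast_dvd_natCast.mpr hpd).trans (Int.gcd_dvd_left _ _)
    have d2 : (p : ℤ) ∣ N2 + (t.2 : ℤ) :=
      (Int.natCast_dvd_natCast.mpr hpd).trans (Int.gcd_dvd_right _ _)
    have htB : t ∈ B p := mem_filter.mpr ⟨ht, d1, d2⟩
    by_cases e1 : p ≤ 100
    · have : t ∈ ((Ioc 1 100).filter Nat.Prime).biUnion B :=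
        mem_biUnion.mpr ⟨p, mem_filter.mpr ⟨mem_Ioc.mpr ⟨hp.one_lt, e1⟩, hp⟩, htB⟩
      exact mem_union_right _ (mem_union_right _ (mem_union_right _ (mem_union_right _ (mem_union_right _ (mem_union_left _ this)))))
    by_cases e2 : p ≤ X
    · have : t ∈ ((Ioc 100 X).filter Nat.Prime).biUnion B :=
        mem_biUnion.mpr ⟨p, mem_filter.mpr ⟨mem_Ioc.mpr ⟨by omega, e2⟩, hp⟩, htB⟩
      exact mem_union_right _ (mem_union_right _ (mem_union_right _ (mem_union_right _ (mem_union_right _ (mem_union_right _ (this))))))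
    · have : t ∈ LB := mem_filter.mpr ⟨ht, c1, p, hp, by omega, d1, d2⟩
      exact mem_union_right _ (mem_union_right _ (mem_union_right _ (mem_union_right _ (mem_union_left _ this))))
  have hTc : (T.card : ℝ) = (X : ℝ) ^ 2 := by
    rw [hT, card_product]; simp; ring
  have hc : (T.card : ℝ) ≤ G.card + (Z1.card + (Z2.card + (Z3.card + (LB.card +
      ((((Ioc 1 100).filter Nat.Prime).biUnion B).card +
      (((Ioc 100 X).filter Nat.Prime).biUnion B).card))))) := by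
    have hh : T.card ≤ G.card + (Z1.card + (Z2.card + (Z3.card + (LB.card +
      ((((Ioc 1 100).filter Nat.Prime).biUnion B).card +
      (((Ioc 100 X).filter Nat.Prime).biUnion B).card))))) := by
      refine (card_le_card hsub).trans ((card_union_le _ _).trans ?_)
      refine Nat.add_le_add_left ((card_union_le _ _).trans ?_) _
      refine Nat.add_le_add_left ((card_union_le _ _).trans ?_) _
      refine Nat.add_le_add_left ((card_union_le _ _).trans ?_) _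
      refine Nat.add_le_add_left ((card_union_le _ _).trans ?_) _
      exact Nat.add_le_add_left (card_union_le _ _) _
    exact_mod_cast hh
  have cZ1 : (Z1.card : ℝ) ≤ X := by
    have : Z1.card ≤ (Icc 1 X).card := by
      apply card_le_card_of_injOn (fun t => t.2)
      · intro t ht
        rw [mem_coe, hZ1, mem_filter, hT, mem_product] at ht
        exact ht.1.2
      · intro t ht s hs hts
        rw [mem_coe, hZ1, mem_filter] at ht hs
        have : (t.1 : ℤ) = s.1 := by linarith [ht.2, hs.2]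
        exact Prod.ext (by exact_mod_cast this) hts
    have e : (Icc 1 X).card = X := by simp
    rw [e] at this
    exact_mod_cast this
  have cZ2 : (Z2.card : ℝ) ≤ X := by
    have : Z2.card ≤ (Icc 1 X).card := by
      apply card_le_card_of_injOn (fun t => t.1)
      · intro t ht
        rw [mem_coe, hZ2, mem_filter, hT, mem_product] at ht
        exact ht.1.1
      · intro t ht s hs hts
        rw [mem_coe, hZ2, mem_filter] at ht hs
        have : (t.2 : ℤ) = s.2 := by linarith [ht.2, hs.2]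
        exact Prod.ext hts (by exact_mod_cast this)
    have e : (Icc 1 X).card = X := by simp
    rw [e] at this
    exact_mod_cast this
  have cZ3 : (Z3.card : ℝ) ≤ X := by
    have : Z3.card ≤ (Icc 1 X).card := by
      apply card_le_card_of_injOn (fun t => t.1)
      · intro t ht
        rw [mem_coe, hZ3, mem_filter, hT, mem_product] at ht
        exact ht.1.1
      · intro t ht s hs hts
        rw [mem_coe, hZ3, mem_filter] at ht hs
        have h0 : (t.1 : ℤ) = s.1 := by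
          have : t.1 = s.1 := hts
          rw [this]
        have : (t.2 : ℤ) = s.2 := by linarith [ht.2, hs.2]
        exact Prod.ext hts (by exact_mod_cast this)
    have e : (Icc 1 X).card = X := by simp
    rw [e] at this
    exact_mod_cast this
  have cLB : (LB.card : ℝ) ≤ X * (L + 2 : ℕ) := by
    have : LB.card ≤ X * (L + 2) := by
      apply largecount N1 N2 X (L + 2) hX1
      intro t ht
      have ht2 := (mem_Icc.mp ht).2
      have h3 : (N1 + (t : ℤ)).natAbs ≤ N1.natAbs + t := by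
        refine (Int.natAbs_add_le _ _).trans ?_
        simp
      have h4 : X ^ L ≤ X ^ (L + 1) := Nat.pow_le_pow_right hX1 (by omega)
      have h5 : X ≤ X ^ (L + 1) := Nat.le_self_pow (by omega) X
      calc (N1 + (t : ℤ)).natAbs ≤ X ^ (L + 1) * 2 := by omega
        _ ≤ X ^ (L + 1) * X := Nat.mul_le_mul_left _ (by omega)
        _ = X ^ (L + 2) := by rw [← pow_succ]
    exact_mod_cast this
  have cS : ((((Ioc 1 100).filter Nat.Prime).biUnion B).card : ℝ) ≤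
      (1 / 4 + 1 / 9 + 1 / 25 + 1 / 6) * (X : ℝ) ^ 2 + 200 * X + 100 := by
    refine le_trans ?_ (sm X)
    calc ((((Ioc 1 100).filter Nat.Prime).biUnion B).card : ℝ) ≤
          ((∑ p ∈ (Ioc 1 100).filter Nat.Prime, (B p).card : ℕ) : ℝ) := by
          have hh : (((Ioc 1 100).filter Nat.Prime).biUnion B).card ≤
            ∑ p ∈ (Ioc 1 100).filter Nat.Prime, (B p).card := card_biUnion_le
          exact_mod_cast hh
      _ = ∑ p ∈ (Ioc 1 100).filter Nat.Prime, ((B p).card : ℝ) := by push_cast; rfl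
      _ ≤ _ := by
          apply sum_le_sum
          intro p hp
          exact cnt2 N1 N2 X p (mem_filter.mp hp).2.pos
  have cM : ((((Ioc 100 X).filter Nat.Prime).biUnion B).card : ℝ) ≤
      1 / 25 * (X : ℝ) ^ 2 := by
    refine le_trans ?_ (md X (by omega))
    calc ((((Ioc 100 X).filter Nat.Prime).biUnion B).card : ℝ) ≤
          ((∑ p ∈ (Ioc 100 X).filter Nat.Prime, (B p).card : ℕ) : ℝ) := by
          have hh : (((Ioc 100 X).filter Nat.Prime).biUnion B).card ≤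
            ∑ p ∈ (Ioc 100 X).filter Nat.Prime, (B p).card := card_biUnion_le
          exact_mod_cast hh
      _ = ∑ p ∈ (Ioc 100 X).filter Nat.Prime, ((B p).card : ℝ) := by push_cast; rfl
      _ ≤ _ := by
          apply sum_le_sum
          intro p hp
          exact cnt2 N1 N2 X p (mem_filter.mp hp).2.pos
  have hXr : (8 : ℝ) * (L + 205) ≤ X := by exact_mod_cast hX
  rw [hTc] at hc
  push_cast at cLB
  have hX0 : (0 : ℝ) ≤ X := by positivity
  have hX1r : (1 : ℝ) ≤ X := by exact_mod_cast hX1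
  nlinarith [mul_le_mul_of_nonneg_right hXr hX0]

theorem copr : Pool.Agent.TH841.FD.COPR := by
  intro L
  refine ⟨8 * (L + 205), fun N1 N2 X hX h1 h2 => ?_⟩
  apply core L N1 N2 X hX h1 h2
  intro t ht c1 c2 c3 c4
  rw [mem_filter]
  exact ⟨ht, c1, c2, c3, c4⟩

end Pool.Agent.TH841.FD.COPRf
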