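import Mathlib
import Pool.Agent.TH841.FD.Stm
import Pool.Agent.TH231.NO.QumCore

/-!
# FD-LOC: local points of the double coverings give local points in the class `(b₁, d)`

Written by helper324 for helper841 (project FD, job 5101).
-/

set_option autoImplicit false

namespace Pool.Agent.TH841.FD.COVLf

open Pool.Agent.TH231.NO

lemma core {K : Type} [Field K] [CharZero K] (H : Scal K) (A B : ℤ) (b d : K)
    (hA : A ≠ 0) (hB : B ≠ 0) (hAB : A ≠ B) (hb : b ≠ 0) (hd : d ≠ 0)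
    (h : ∃ M e x y : K, (M ≠ 0 ∨ e ≠ 0) ∧ b * M ^ 2 - (A : K) * e ^ 2 = d * x ^ 2 ∧
      b * M ^ 2 - (B : K) * e ^ 2 = b * d * y ^ 2) :
    ∃ X Y : K, Y ≠ 0 ∧ Y ^ 2 = X * (X - A) * (X - B) ∧ IsSquare (X * b) ∧
      IsSquare ((X - A) * d) := by
  obtain ⟨M, e, x, y, hMe, h1, h2⟩ := h
  have hα : (A : K) ≠ 0 := Int.cast_ne_zero.2 hA
  have hβ : (B : K) ≠ 0 := Int.cast_ne_zero.2 hB
  have hD : (A : K) - (B : K) ≠ 0 := sub_ne_zero.2 (Int.cast_injective.ne hAB)
  by_cases he : e = 0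
  · have hM : M ≠ 0 := hMe.resolve_right (not_not.2 he)
    rw [he] at h1 h2
    have h3 : M ^ 2 = d * y ^ 2 := by
      apply mul_left_cancel₀ hb
      linear_combination h2
    have hy : y ≠ 0 := by
      rintro rfl
      apply pow_ne_zero 2 hM
      rw [h3]
      ring
    have hds : d = (M / y) ^ 2 := by
      rw [div_pow, eq_div_iff (pow_ne_zero 2 hy)]
      exact h3.symm
    have hbs : b = (x / y) ^ 2 := by
      rw [div_pow, eq_div_iff (pow_ne_zero 2 hy)]
      apply mul_left_cancel₀ hd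
      linear_combination h1 - b * h3
    obtain ⟨u, hu, hr⟩ := H {A, B}
    obtain ⟨r, hr0, hr1⟩ := hr A (by simp)
    obtain ⟨s, hs0, hs1⟩ := hr B (by simp)
    have e1 : (1 / u ^ 2 - (A : K)) = (r / u) ^ 2 := by
      rw [div_pow, hr1]
      field_simp
    have e2 : (1 / u ^ 2 - (B : K)) = (s / u) ^ 2 := by
      rw [div_pow, hs1]
      field_simp
    refine ⟨1 / u ^ 2, 1 / u * (r / u) * (s / u), ?_, ?_, ⟨1 / u * (x / y), ?_⟩,
      ⟨r / u * (M / y), ?_⟩⟩
    · exact mul_ne_zero (mul_ne_zero (one_div_ne_zero hu) (div_ne_zero hr0 hu))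
        (div_ne_zero hs0 hu)
    · rw [e1, e2]
      ring
    · rw [hbs]
      ring
    · rw [e1, hds]
      ring
  -- the affine coordinates
  obtain ⟨m, hm⟩ : ∃ m, m = M / e := ⟨_, rfl⟩
  obtain ⟨v, hv⟩ : ∃ v, v = x / e := ⟨_, rfl⟩
  obtain ⟨w, hw⟩ : ∃ w, w = y / e := ⟨_, rfl⟩
  have k1 : b * m ^ 2 - (A : K) = d * v ^ 2 := by
    rw [hm, hv, div_pow, div_pow]
    field_simp
    linear_combination h1
  have k2 : b * m ^ 2 - (B : K) = b * d * w ^ 2 := by
    rw [hm, hw, div_pow, div_pow]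
    field_simp
    linear_combination h2
  clear h1 h2 hm hv hw hMe he
  by_cases hm0 : m = 0
  · -- points near `(0, 0)`
    rw [hm0] at k1 k2
    have hv0 : v ≠ 0 := by
      rintro rfl
      apply hα
      linear_combination -k1
    have hw0 : w ≠ 0 := by
      rintro rfl
      apply hβ
      linear_combination -k2
    obtain ⟨u, hu, hr⟩ := H {A, B}
    obtain ⟨t, ht0, ht1⟩ := hr A (by simp)
    obtain ⟨s, hs0, hs1⟩ := hr B (by simp)
    have eA : (A : K) = -(d * v ^ 2) := by linear_combination -k1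
    have eB : (B : K) = -(b * d * w ^ 2) := by linear_combination -k2
    have eX : (A : K) * B * u ^ 2 = b * (d * v * w * u) ^ 2 := by
      rw [eA, eB]
      ring
    have eXA : (A : K) * B * u ^ 2 - A = d * (v * s) ^ 2 := by
      rw [mul_pow, hs1]
      linear_combination k1 - (B : K) * u ^ 2 * k1
    have eXB : (A : K) * B * u ^ 2 - B = b * d * (w * t) ^ 2 := by
      rw [mul_pow, ht1]
      linear_combination k2 - (A : K) * u ^ 2 * k2
    refine ⟨(A : K) * B * u ^ 2, b * d * (d * v * w * u) * (v * s) * (w * t), ?_, ?_,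
      ⟨b * (d * v * w * u), ?_⟩, ⟨d * (v * s), ?_⟩⟩
    · exact mul_ne_zero (mul_ne_zero (mul_ne_zero (mul_ne_zero hb hd) (mul_ne_zero (mul_ne_zero
        (mul_ne_zero hd hv0) hw0) hu)) (mul_ne_zero hv0 hs0)) (mul_ne_zero hw0 ht0)
    · rw [eXA, eXB, eX]
      ring
    · rw [eX]
      ring
    · rw [eXA]
      ring
  by_cases hv0 : v = 0
  · -- points near `(A, 0)`
    rw [hv0] at k1
    have eA : (A : K) = b * m ^ 2 := by linear_combination -k1
    have eAB : (A : K) - B = b * d * w ^ 2 := by linear_combination k2 - k1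
    obtain ⟨u, hu, hr⟩ := H {B - A, -A}
    obtain ⟨s, hs0, hs1⟩ := hr (B - A) (by simp)
    obtain ⟨t, ht0, ht1⟩ := hr (-A) (by simp)
    push_cast at hs1 ht1
    have eX : (A : K) + A * (A - B) * u ^ 2 = A * s ^ 2 := by
      rw [hs1]
      ring
    have eXB : (A : K) + A * (A - B) * u ^ 2 - B = (A - B) * t ^ 2 := by
      rw [ht1]
      ring
    refine ⟨(A : K) + A * (A - B) * u ^ 2, A * (A - B) * s * u * t, ?_, ?_, ⟨b * m * s, ?_⟩,
      ⟨b * m * d * w * u, ?_⟩⟩
    · exact mul_ne_zero (mul_ne_zero (mul_ne_zero (mul_ne_zero hα hD) hs0) hu) ht0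
    · rw [eXB, show (A : K) + A * (A - B) * u ^ 2 - A = A * (A - B) * u ^ 2 by ring, eX]
      ring
    · rw [eX, eA]
      ring
    · rw [show (A : K) + A * (A - B) * u ^ 2 - A = A * (A - B) * u ^ 2 by ring, eAB, eA]
      ring
  by_cases hw0 : w = 0
  · -- points near `(B, 0)`
    rw [hw0] at k2
    have eB : (B : K) = b * m ^ 2 := by linear_combination -k2
    have eBA : (B : K) - A = d * v ^ 2 := by linear_combination k1 - k2
    have hD' : (B : K) - A ≠ 0 := by
      intro h0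
      apply hD
      linear_combination -h0
    obtain ⟨u, hu, hr⟩ := H {A - B, -B}
    obtain ⟨s, hs0, hs1⟩ := hr (A - B) (by simp)
    obtain ⟨t, ht0, ht1⟩ := hr (-B) (by simp)
    push_cast at hs1 ht1
    have eX : (B : K) + B * (B - A) * u ^ 2 = B * s ^ 2 := by
      rw [hs1]
      ring
    have eXA : (B : K) + B * (B - A) * u ^ 2 - A = (B - A) * t ^ 2 := by
      rw [ht1]
      ring
    refine ⟨(B : K) + B * (B - A) * u ^ 2, B * (B - A) * s * u * t, ?_, ?_, ⟨b * m * s, ?_⟩,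
      ⟨d * v * t, ?_⟩⟩
    · exact mul_ne_zero (mul_ne_zero (mul_ne_zero (mul_ne_zero hβ hD') hs0) hu) ht0
    · rw [eXA, show (B : K) + B * (B - A) * u ^ 2 - B = B * (B - A) * u ^ 2 by ring, eX]
      ring
    · rw [eX, eB]
      ring
    · rw [eXA, eBA]
      ring
  -- the generic case
  refine ⟨b * m ^ 2, b * d * m * v * w, ?_, ?_, ⟨b * m, ?_⟩, ⟨d * v, ?_⟩⟩
  · exact mul_ne_zero (mul_ne_zero (mul_ne_zero (mul_ne_zero hb hd) hm0) hv0) hw0
  · rw [k1, k2]
    ring
  · ring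
  · rw [k1]
    ring

lemma one_field {K : Type} [Field K] [CharZero K] (H : Scal K) (A B b₁ d : ℤ) (hA : A ≠ 0)
    (hB : B ≠ 0) (hAB : A ≠ B) (hb : b₁ ≠ 0) (hd : d ≠ 0)
    (h : Pool.Agent.TH841.FD.Cov K A B b₁ d) : Pool.Agent.W307.SE.Loc K A B b₁ d :=
  core H A B (b₁ : K) (d : K) hA hB hAB (Int.cast_ne_zero.2 hb) (Int.cast_ne_zero.2 hd) h

/-- FD-LOC -/
theorem covl : Pool.Agent.TH841.FD.COVL := by
  intro A B b₁ d hA hB hAB hb hd
  exact ⟨fun h => one_field scal_real A B b₁ d hA hB hAB hb hd h,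
    fun p _ h => one_field (scal_padic p) A B b₁ d hA hB hAB hb hd h⟩

end Pool.Agent.TH841.FD.COVLf
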