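import Mathlib
import Pool.Agent.TH841.FD.Main
import Pool.Agent.TH841.LS.Main6
import Pool.Agent.TH841.LS.Cnt2x
import Pool.Agent.W307.FK.Main

/-!
# Project FD: coprime pairs in short squares
-/

set_option autoImplicit false

namespace Pool.Agent.TH841.FD

open Finset

open Pool.Agent.TH841.NO (SQ)

open Pool.Agent.TH841.LS (GA GD C1x C2x CNT2X)

open Pool.Agent.W307.SE (SN SN_nonneg)

open Pool.Agent.W307.FK (AVGN SS)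

open Classical in
/-- **coprime pairs in short squares** -/
theorem pairs (hcov : COVL) (hcopr : COPR) (D : ℤ) (hD : D ≠ 0) (δ : ℝ) (L : ℕ) (hδ : 0 < δ) :
    ∃ X0 : ℕ, ∀ (N1 N2 : ℤ) (X : ℕ), X0 ≤ X → N1.natAbs ≤ X ^ L → N2.natAbs ≤ X ^ L →
      ∑ t ∈ (Icc 1 X ×ˢ Icc 1 X).filter (fun t : ℕ × ℕ =>
        IsCoprime (N1 + (t.1 : ℤ)) (N2 + (t.2 : ℤ)) ∧ N1 + (t.1 : ℤ) ≠ 0 ∧ N2 + (t.2 : ℤ) ≠ 0 ∧
        N1 + (t.1 : ℤ) ≠ N2 + (t.2 : ℤ)),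
        ((LF (D * (N1 + (t.1 : ℤ))) (D * (N2 + (t.2 : ℤ)))).ncard : ℝ) ≤
      (Real.log X) ^ (δ - 3 / 2 * Real.log 2) *
      ∑ t ∈ (Icc 1 X ×ˢ Icc 1 X).filter (fun t : ℕ × ℕ =>
        IsCoprime (N1 + (t.1 : ℤ)) (N2 + (t.2 : ℤ)) ∧ N1 + (t.1 : ℤ) ≠ 0 ∧ N2 + (t.2 : ℤ) ≠ 0 ∧
        N1 + (t.1 : ℤ) ≠ N2 + (t.2 : ℤ)),
        ((SQ (-(D * (N1 + (t.1 : ℤ)) + D * (N2 + (t.2 : ℤ))))
          (D * (N1 + (t.1 : ℤ)) * (D * (N2 + (t.2 : ℤ))))).ncard : ℝ) := by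
  obtain ⟨X1, hX1⟩ := LS.CNT2Xf.cnt2x D hD (δ / 2) (1 / 8) L (by positivity) (by norm_num)
  obtain ⟨X2, hX2⟩ := hcopr L
  obtain ⟨C0, hC0, hC⟩ := (Pool.Agent.W307.FK.avgn_of Pool.Agent.W307.FK.expf) L
  set C1' : ℝ := C0 * 128 ^ D.natAbs.primeFactors.card with hC1'
  have hC1'0 : 0 ≤ C1' := by positivity
  obtain ⟨M3, hM3⟩ := ratio (3 / 2) δ C1' hδ hC1'0
  refine ⟨X1 + X2 + M3 + 1, fun N1 N2 X hX hN1 hN2 => ?_⟩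
  have h1 := hX1 N1 N2 X (by omega) hN1 hN2
  have h2 := hX2 N1 N2 X (by omega) hN1 hN2
  have h3 := hC D N1 N2 X hD (by omega) hN1 hN2
  have hne : ∀ t : ℕ × ℕ, N1 + (t.1 : ℤ) ≠ N2 + (t.2 : ℤ) →
      D * (N1 + (t.1 : ℤ)) ≠ D * (N2 + (t.2 : ℤ)) := fun t e1 h' => e1 (mul_left_cancel₀ hD h')
  refine hM3 X (by omega) ((X : ℝ) ^ 2) _ _ (by positivity) ?_ ?_
  · -- the lower bound
    let P : Finset (ℕ × ℕ) := (Icc 1 X ×ˢ Icc 1 X).filter (fun t : ℕ × ℕ =>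
        IsCoprime (N1 + (t.1 : ℤ)) (N2 + (t.2 : ℤ)) ∧ N1 + (t.1 : ℤ) ≠ 0 ∧ N2 + (t.2 : ℤ) ≠ 0 ∧
        N1 + (t.1 : ℤ) ≠ N2 + (t.2 : ℤ))
    let Y1 : Finset (ℕ × ℕ) := (Icc 1 X ×ˢ Icc 1 X).filter (fun t : ℕ × ℕ =>
      IsCoprime (N1 + (t.1 : ℤ)) (N2 + (t.2 : ℤ)) ∧
      ¬ (N1 + (t.1 : ℤ) ≠ 0 ∧ N2 + (t.2 : ℤ) ≠ 0 ∧ N1 + (t.1 : ℤ) ≠ N2 + (t.2 : ℤ) ∧
        (3 / 2 - δ / 2) * Real.log (Real.log X) +
          ((C1x (D * (N1 + (t.1 : ℤ))) (D * (N2 + (t.2 : ℤ)))).card : ℝ) +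
          ((C2x (D * (N1 + (t.1 : ℤ))) (D * (N2 + (t.2 : ℤ)))).card : ℝ) ≤
        ((GA (D * (N1 + (t.1 : ℤ))) (D * (N2 + (t.2 : ℤ)))).card : ℝ) +
        ((GD (D * (N1 + (t.1 : ℤ))) (D * (N2 + (t.2 : ℤ)))).card : ℝ)))
    have c1 : (Y1.card : ℝ) ≤ 1 / 8 * X ^ 2 := by convert h1
    have c2 : (X : ℝ) ^ 2 / 4 ≤ (P.card : ℝ) := by convert h2
    have hGc : (X : ℝ) ^ 2 / 8 ≤ ((P \ Y1).card : ℝ) := by
      have h5 : P.card ≤ (P \ Y1).card + Y1.card := by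
        have := le_card_sdiff Y1 P
        omega
      have h6 : (P.card : ℝ) ≤ ((P \ Y1).card : ℝ) + (Y1.card : ℝ) := by exact_mod_cast h5
      linarith
    have h9 : ∀ t ∈ P \ Y1, (2 : ℝ) ^ ((3 / 2 - δ / 2) * Real.log (Real.log X) - 5) ≤
        ((SQ (-(D * (N1 + (t.1 : ℤ)) + D * (N2 + (t.2 : ℤ))))
          (D * (N1 + (t.1 : ℤ)) * (D * (N2 + (t.2 : ℤ))))).ncard : ℝ) := by
      intro t ht
      obtain ⟨hP, hY⟩ := mem_sdiff.1 ht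
      obtain ⟨ht1, ht2, ht3, ht4, ht5⟩ := mem_filter.1 hP
      have n1' := not_not.1 (fun h' => hY (mem_filter.2 ⟨ht1, ht2, h'⟩))
      exact many (mul_ne_zero hD ht3) (mul_ne_zero hD ht4) (hne t ht5) n1'.2.2.2
    calc (X : ℝ) ^ 2 / 8 * (2 : ℝ) ^ ((3 / 2 - δ / 2) * Real.log (Real.log X) - 5)
        ≤ ((P \ Y1).card : ℝ) * (2 : ℝ) ^ ((3 / 2 - δ / 2) * Real.log (Real.log X) - 5) :=
          mul_le_mul_of_nonneg_right hGc (by positivity)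
      _ ≤ ∑ t ∈ P \ Y1, ((SQ (-(D * (N1 + (t.1 : ℤ)) + D * (N2 + (t.2 : ℤ))))
          (D * (N1 + (t.1 : ℤ)) * (D * (N2 + (t.2 : ℤ))))).ncard : ℝ) := by
          rw [← nsmul_eq_mul]
          exact card_nsmul_le_sum _ _ _ h9
      _ ≤ _ := sum_le_sum_of_subset_of_nonneg sdiff_subset fun _ _ _ => Nat.cast_nonneg _
  · -- the upper bound
    refine le_trans (sum_le_sum (g := fun t : ℕ × ℕ => SS D (N1 + (t.1 : ℤ), N2 + (t.2 : ℤ)))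
      fun t ht => ?_) (le_trans (sum_le_sum_of_subset_of_nonneg (filter_subset _ _)
        fun t _ _ => ?_) h3)
    · obtain ⟨ht1, ht2, ht3, ht4, ht5⟩ := mem_filter.1 ht
      have hl := lf_le hcov (mul_ne_zero hD ht3) (mul_ne_zero hD ht4) (hne t ht5)
      unfold SS
      rw [if_pos ⟨ht2, ht3, ht4, ht5⟩]
      change _ ≤ SN (D * (N1 + (t.1 : ℤ))) (D * (N2 + (t.2 : ℤ))) ^ 2
      have hn : ((LF (D * (N1 + (t.1 : ℤ))) (D * (N2 + (t.2 : ℤ)))).ncard : ℝ) ≤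
          ((LF (D * (N1 + (t.1 : ℤ))) (D * (N2 + (t.2 : ℤ)))).ncard : ℝ) ^ 2 := by
        have : (LF (D * (N1 + (t.1 : ℤ))) (D * (N2 + (t.2 : ℤ)))).ncard ≤
          (LF (D * (N1 + (t.1 : ℤ))) (D * (N2 + (t.2 : ℤ)))).ncard ^ 2 :=
          Nat.le_self_pow two_ne_zero _
        exact_mod_cast this
      exact hn.trans (pow_le_pow_left₀ (Nat.cast_nonneg _) hl 2)
    · unfold SS
      split_ifs
      · positivity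
      · exact le_rfl

end Pool.Agent.TH841.FD
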