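import Mathlib
import Pool.Agent.TH841.FD.Main2

/-!
# Project FD: almost all the members of the families
-/

set_option autoImplicit false

namespace Pool.Agent.TH841.FD

open Finset Polynomial

open Pool.Agent.TH841.NO (SQ)

open Pool.Agent.TH841.LS (GA GD C1x C2x CNTX CNT2X DG FP_eq sc cst_eq)

open Pool.Agent.TH841.PT (Irr)

open Pool.Agent.TH841.TR (UP FP allf allc fp AV3X Bal pen_all)

open Pool.Agent.W307.SE (SN SN_nonneg)

open Pool.Agent.W262.RK (fs)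

open Pool.Agent.W307.FK (AVGN SS)

section

variable {n : Fin 3 → ℕ} {m : ℕ}

open Classical in
/-- **one-parameter families, almost all members** -/
theorem pencil_ae (hcov : COVL) (a : Fin 3 → ℤ)
    (f : ∀ k : Fin 3, Fin (n k) → ℤ[X]) (c : ℤ) (g : Fin m → ℤ[X])
    (ha : ∀ k, a k ≠ 0) (hc : c ≠ 0) (hf : Irr (allf g f))
    (hU : UP a f 0 - UP a f 1 = UP a f 2) (hn : Bal (DG c g) a f) (δ ε : ℝ) (L : ℕ)
    (hδ : 0 < δ) (hε : 0 < ε) :
    ∃ M0 : ℕ, ∀ (N : ℤ) (M : ℕ), M0 ≤ M → |N| ≤ (M : ℤ) ^ L →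
      (((Ioc N (N + (M : ℤ))).filter (fun t => ¬ ∀ A B : ℤ,
        A = (DG c g * UP a f 0).eval t → B = (DG c g * UP a f 1).eval t →
        A ≠ 0 ∧ B ≠ 0 ∧ A ≠ B ∧ ((LF A B).ncard : ℝ) ≤
          (Real.log M) ^ (δ - sc a f c g * Real.log 2) *
            ((SQ (-(A + B)) (A * B)).ncard : ℝ))).card : ℝ) ≤ ε * M := by
  have ha' : ∀ k, (fun k => c * a k) k ≠ 0 := fun k => mul_ne_zero hc (ha k)
  have hf0 : Irr (fp f) := by
    refine ⟨fun x => hf.irr (Sum.inl x), fun x => hf.deg (Sum.inl x), fun x y hxy => ?_⟩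
    exact hf.assoc (Sum.inl x) (Sum.inl y) (fun h => hxy (Sum.inl_injective h))
  have hD : DG c g ≠ 0 := by
    unfold DG
    exact mul_ne_zero (C_ne_zero.2 hc)
      (prod_ne_zero_iff.2 fun i _ => (hf.irr (Sum.inr i)).ne_zero)
  have hDf : ∀ k i, ¬ f k i ∣ DG c g := by
    intro k i hdvd
    have hirr : Irreducible (f k i) := hf.irr (Sum.inl ⟨k, i⟩)
    have hp : Prime (f k i) := hirr.prime
    unfold DG at hdvd
    rcases hp.dvd_or_dvd hdvd with h1 | h1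
    · have h2 := natDegree_le_of_dvd h1 (C_ne_zero.2 hc)
      rw [natDegree_C] at h2
      have h3 : 0 < (f k i).natDegree := hf.deg (Sum.inl ⟨k, i⟩)
      omega
    · obtain ⟨l, _, hl⟩ := (Prime.dvd_finsetProd_iff hp _).1 h1
      have h2 : Associated (f k i) (g l) :=
        hirr.associated_of_dvd (hf.irr (Sum.inr l)) hl
      exact hf.assoc (Sum.inl ⟨k, i⟩) (Sum.inr l) (by simp) h2
  have hP : ∀ k, C ((fun k => c * a k) k) * ∏ l ∈ fs (allc n m) k, allf g f l =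
      FP (fun k => c * a k) g f k := by
    intro k
    rw [Pool.Agent.TH841.TR.prod_allc]
    unfold FP
    rw [mul_assoc]
    rfl
  have hV : ∀ k t, PT.Fval (allc n m) (fun k => c * a k) (fun l => (allf g f l).eval t) k =
      (DG c g * UP a f k).eval t := by
    intro k t
    rw [← FP_eq, ← hP k, eval_mul, eval_C, eval_prod]
    rfl
  have hF' : FP (fun k => c * a k) g f 0 - FP (fun k => c * a k) g f 1 =
      FP (fun k => c * a k) g f 2 := by
    rw [FP_eq, FP_eq, FP_eq, ← mul_sub, hU]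
  have hcnt' := (LS.CNTXf.cntx_of LS.TKXf.tkx) ((Σ k : Fin 3, Fin (n k)) ⊕ Fin m) (allc n m)
    (fun k => c * a k) (allf g f)
    ha' hf (by rw [hP, hP, hP]; exact hF') (δ / 2) (ε / 2) L (by positivity) (by positivity)
  simp only [hV, cst_eq hc] at hcnt'
  obtain ⟨M1, hM1⟩ := hcnt'
  obtain ⟨C0, hC0, hC⟩ := pen_all Pool.Agent.TH841.TR.tav3x a f ha hf0 hU (DG c g) hD hDf hn L
  obtain ⟨M3, hM3⟩ := ratio (sc a f c g) δ (2 * C0 / ε) hδ (by positivity)
  refine ⟨M1 + M3 + 1, fun N M hM hN => ?_⟩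
  have h1 := hM1 N M (by omega) hN
  have h3 := hC N M (by omega) hN
  have h4 := hM3 M (by omega)
  have hM0 : (0 : ℝ) ≤ M := Nat.cast_nonneg _
  have hne : ∀ t, (∀ k, (DG c g * UP a f k).eval t ≠ 0) →
      (DG c g * UP a f 0).eval t ≠ (DG c g * UP a f 1).eval t := by
    intro t e1 h'
    apply e1 2
    rw [← hU, mul_sub, eval_sub, h', sub_self]
  let Y1 : Finset ℤ := (Ioc N (N + (M : ℤ))).filter (fun t => ¬ ((∀ j, (allf g f j).eval t ≠ 0) ∧
      (sc a f c g - δ / 2) * Real.log (Real.log M) +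
      ((C1x ((DG c g * UP a f 0).eval t) ((DG c g * UP a f 1).eval t)).card : ℝ) +
      ((C2x ((DG c g * UP a f 0).eval t) ((DG c g * UP a f 1).eval t)).card : ℝ) ≤
      ((GA ((DG c g * UP a f 0).eval t) ((DG c g * UP a f 1).eval t)).card : ℝ) +
      ((GD ((DG c g * UP a f 0).eval t) ((DG c g * UP a f 1).eval t)).card : ℝ)))
  have c1 : (Y1.card : ℝ) ≤ ε / 2 * M := by convert h1
  let bad : Finset ℤ := ((Ioc N (N + (M : ℤ))).filter
    (fun t => ∀ k, (DG c g * UP a f k).eval t ≠ 0)).filter (fun t => 8 * (2 * C0 / ε) <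
      SN ((DG c g * UP a f 0).eval t) ((DG c g * UP a f 1).eval t))
  have c2 : (bad.card : ℝ) ≤ ε / 2 * M := by
    by_cases hC00 : C0 = 0
    · have h5 : ∀ t ∈ bad, (0 : ℝ) <
          SN ((DG c g * UP a f 0).eval t) ((DG c g * UP a f 1).eval t) := by
        intro t ht
        have := (mem_filter.1 ht).2
        rw [hC00] at this
        simpa using this
      have h6 : bad = ∅ := by
        rw [eq_empty_iff_forall_notMem]
        intro t ht
        have h7 := h5 t ht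
        have h8 : SN ((DG c g * UP a f 0).eval t) ((DG c g * UP a f 1).eval t) ≤ C0 * M := by
          refine le_trans ?_ h3
          exact single_le_sum (f := fun t => SN ((DG c g * UP a f 0).eval t)
            ((DG c g * UP a f 1).eval t)) (fun t _ => SN_nonneg _ _) (mem_filter.1 ht).1
        rw [hC00, zero_mul] at h8
        linarith
      rw [h6, card_empty, Nat.cast_zero]
      positivity
    · have hC01 : 0 < C0 := lt_of_le_of_ne hC0 (Ne.symm hC00)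
      have h5 : (bad.card : ℝ) * (2 * C0 / ε) ≤ C0 * M := by
        refine le_trans ?_ h3
        rw [← nsmul_eq_mul]
        refine le_trans (card_nsmul_le_sum bad (fun t => SN ((DG c g * UP a f 0).eval t)
            ((DG c g * UP a f 1).eval t)) _ fun t ht => ?_)
          (sum_le_sum_of_subset_of_nonneg (filter_subset _ _) fun t _ _ => SN_nonneg _ _)
        have h6 := (mem_filter.1 ht).2
        have h7 : 0 ≤ 2 * C0 / ε := by positivity
        linarith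
      have h6 : (bad.card : ℝ) * (2 * C0) ≤ C0 * M * ε := by
        rw [← mul_div_assoc, div_le_iff₀ hε] at h5
        exact h5
      have h7 : (bad.card : ℝ) * 2 ≤ M * ε := by
        by_contra hcon
        push Not at hcon
        nlinarith
      linarith
  have h10 : (Ioc N (N + (M : ℤ))).filter (fun t => ¬ ∀ A B : ℤ,
        A = (DG c g * UP a f 0).eval t → B = (DG c g * UP a f 1).eval t →
        A ≠ 0 ∧ B ≠ 0 ∧ A ≠ B ∧ ((LF A B).ncard : ℝ) ≤
          (Real.log M) ^ (δ - sc a f c g * Real.log 2) *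
            ((SQ (-(A + B)) (A * B)).ncard : ℝ)) ⊆ Y1 ∪ bad := by
    intro t ht
    obtain ⟨ht1, ht2⟩ := mem_filter.1 ht
    by_contra hcon
    rw [mem_union, not_or] at hcon
    obtain ⟨n1, n2⟩ := hcon
    obtain ⟨m1, m2⟩ := not_not.1 (fun h' => n1 (mem_filter.2 ⟨ht1, h'⟩))
    have hz : ∀ k, (DG c g * UP a f k).eval t ≠ 0 := by
      intro k
      rw [← hV k t]
      have h8 : PT.Fval (allc n m) (fun k => c * a k) (fun l => (allf g f l).eval t) k =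
        (c * a k) * ∏ l ∈ fs (allc n m) k, (allf g f l).eval t := rfl
      rw [h8]
      exact mul_ne_zero (ha' k) (prod_ne_zero_iff.2 fun l _ => m1 l)
    have hs : SN ((DG c g * UP a f 0).eval t) ((DG c g * UP a f 1).eval t) ≤
        8 * (2 * C0 / ε) := by
      by_contra h'
      exact n2 (mem_filter.2 ⟨mem_filter.2 ⟨ht1, hz⟩, not_le.1 h'⟩)
    apply ht2
    rintro A B rfl rfl
    refine ⟨hz 0, hz 1, hne t hz, h4 8 _ _ (by norm_num) ?_ ?_⟩
    · rw [div_self (by norm_num : (8 : ℝ) ≠ 0), one_mul]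
      exact many (hz 0) (hz 1) (hne t hz) m2
    · refine (lf_le hcov (hz 0) (hz 1) (hne t hz)).trans (hs.trans (le_of_eq ?_))
      ring
  have h11 := (card_le_card h10).trans (card_union_le _ _)
  have h12 := (Nat.cast_le (α := ℝ)).2 h11
  rw [Nat.cast_add] at h12
  linarith

end

open Classical in
/-- **almost all the coprime pairs in short squares** -/
theorem pairs_ae (hcov : COVL) (D : ℤ) (hD : D ≠ 0) (δ ε : ℝ) (L : ℕ) (hδ : 0 < δ)
    (hε : 0 < ε) :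
    ∃ X0 : ℕ, ∀ (N1 N2 : ℤ) (X : ℕ), X0 ≤ X → N1.natAbs ≤ X ^ L → N2.natAbs ≤ X ^ L →
      (((Icc 1 X ×ˢ Icc 1 X).filter (fun t : ℕ × ℕ =>
        IsCoprime (N1 + (t.1 : ℤ)) (N2 + (t.2 : ℤ)) ∧
        ¬ ∀ A B : ℤ, A = D * (N1 + (t.1 : ℤ)) → B = D * (N2 + (t.2 : ℤ)) →
        A ≠ 0 ∧ B ≠ 0 ∧ A ≠ B ∧ ((LF A B).ncard : ℝ) ≤
          (Real.log X) ^ (δ - 3 / 2 * Real.log 2) *
            ((SQ (-(A + B)) (A * B)).ncard : ℝ))).card : ℝ) ≤ ε * X ^ 2 := by
  obtain ⟨X1, hX1⟩ := LS.CNT2Xf.cnt2x D hD (δ / 2) (ε / 2) L (by positivity) (by positivity)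
  obtain ⟨C0, hC0, hC⟩ := (Pool.Agent.W307.FK.avgn_of Pool.Agent.W307.FK.expf) L
  set C1' : ℝ := C0 * 128 ^ D.natAbs.primeFactors.card + 1 with hC1'
  have hC1'0 : 0 < C1' := by positivity
  obtain ⟨M3, hM3⟩ := ratio (3 / 2) δ (2 * C1' / ε) hδ (by positivity)
  refine ⟨X1 + M3 + 1, fun N1 N2 X hX hN1 hN2 => ?_⟩
  have h1 := hX1 N1 N2 X (by omega) hN1 hN2
  have h3 := hC D N1 N2 X hD (by omega) hN1 hN2
  have h4 := hM3 X (by omega)
  have hX0 : (0 : ℝ) ≤ (X : ℝ) ^ 2 := by positivity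
  have hne : ∀ t : ℕ × ℕ, N1 + (t.1 : ℤ) ≠ N2 + (t.2 : ℤ) →
      D * (N1 + (t.1 : ℤ)) ≠ D * (N2 + (t.2 : ℤ)) := fun t e1 h' => e1 (mul_left_cancel₀ hD h')
  let bad : Finset (ℕ × ℕ) := (Icc 1 X ×ˢ Icc 1 X).filter (fun t : ℕ × ℕ =>
    2 * C1' / ε < SS D (N1 + (t.1 : ℤ), N2 + (t.2 : ℤ)))
  have hSS : ∀ t : ℕ × ℕ, 0 ≤ SS D (N1 + (t.1 : ℤ), N2 + (t.2 : ℤ)) := by
    intro t
    unfold SS
    split_ifs
    · positivity
    · exact le_rfl
  have c2 : (bad.card : ℝ) ≤ ε / 2 * X ^ 2 := by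
    have h5 : (bad.card : ℝ) * (2 * C1' / ε) ≤ C1' * X ^ 2 := by
      refine le_trans ?_ (h3.trans (mul_le_mul_of_nonneg_right (by rw [hC1']; linarith) hX0))
      rw [← nsmul_eq_mul]
      refine le_trans (card_nsmul_le_sum bad (fun t => SS D (N1 + (t.1 : ℤ), N2 + (t.2 : ℤ))) _
        fun t ht => (mem_filter.1 ht).2.le)
        (sum_le_sum_of_subset_of_nonneg (filter_subset _ _) fun t _ _ => hSS t)
    have h6 : (bad.card : ℝ) * (2 * C1') ≤ C1' * X ^ 2 * ε := by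
      rw [← mul_div_assoc, div_le_iff₀ hε] at h5
      exact h5
    have h7 : (bad.card : ℝ) * 2 ≤ X ^ 2 * ε := by
      by_contra hcon
      push Not at hcon
      nlinarith
    linarith
  let Y1 : Finset (ℕ × ℕ) := (Icc 1 X ×ˢ Icc 1 X).filter (fun t : ℕ × ℕ =>
      IsCoprime (N1 + (t.1 : ℤ)) (N2 + (t.2 : ℤ)) ∧
      ¬ (N1 + (t.1 : ℤ) ≠ 0 ∧ N2 + (t.2 : ℤ) ≠ 0 ∧ N1 + (t.1 : ℤ) ≠ N2 + (t.2 : ℤ) ∧
        (3 / 2 - δ / 2) * Real.log (Real.log X) +
          ((C1x (D * (N1 + (t.1 : ℤ))) (D * (N2 + (t.2 : ℤ)))).card : ℝ) +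
          ((C2x (D * (N1 + (t.1 : ℤ))) (D * (N2 + (t.2 : ℤ)))).card : ℝ) ≤
        ((GA (D * (N1 + (t.1 : ℤ))) (D * (N2 + (t.2 : ℤ)))).card : ℝ) +
        ((GD (D * (N1 + (t.1 : ℤ))) (D * (N2 + (t.2 : ℤ)))).card : ℝ)))
  have c1 : (Y1.card : ℝ) ≤ ε / 2 * X ^ 2 := by convert h1
  have h10 : (Icc 1 X ×ˢ Icc 1 X).filter (fun t : ℕ × ℕ =>
        IsCoprime (N1 + (t.1 : ℤ)) (N2 + (t.2 : ℤ)) ∧
        ¬ ∀ A B : ℤ, A = D * (N1 + (t.1 : ℤ)) → B = D * (N2 + (t.2 : ℤ)) →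
        A ≠ 0 ∧ B ≠ 0 ∧ A ≠ B ∧ ((LF A B).ncard : ℝ) ≤
          (Real.log X) ^ (δ - 3 / 2 * Real.log 2) *
            ((SQ (-(A + B)) (A * B)).ncard : ℝ)) ⊆ Y1 ∪ bad := by
    intro t ht
    obtain ⟨ht1, ht2, ht3⟩ := mem_filter.1 ht
    by_contra hcon
    rw [mem_union, not_or] at hcon
    obtain ⟨n1, n3⟩ := hcon
    obtain ⟨m1, m2, m3, m4⟩ := not_not.1 (fun h' => n1 (mem_filter.2 ⟨ht1, ht2, h'⟩))
    have hs : SS D (N1 + (t.1 : ℤ), N2 + (t.2 : ℤ)) ≤ 2 * C1' / ε := by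
      by_contra h'
      exact n3 (mem_filter.2 ⟨ht1, not_le.1 h'⟩)
    apply ht3
    rintro A B rfl rfl
    have hl := lf_le hcov (mul_ne_zero hD m1) (mul_ne_zero hD m2) (hne t m3)
    refine ⟨mul_ne_zero hD m1, mul_ne_zero hD m2, hne t m3, h4 8 _ _ (by norm_num) ?_ ?_⟩
    · rw [div_self (by norm_num : (8 : ℝ) ≠ 0), one_mul]
      exact many (mul_ne_zero hD m1) (mul_ne_zero hD m2) (hne t m3) m4
    · unfold SS at hs
      rw [if_pos ⟨ht2, m1, m2, m3⟩] at hs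
      change SN (D * (N1 + (t.1 : ℤ))) (D * (N2 + (t.2 : ℤ))) ^ 2 ≤ _ at hs
      have hn : ((LF (D * (N1 + (t.1 : ℤ))) (D * (N2 + (t.2 : ℤ)))).ncard : ℝ) ≤
          ((LF (D * (N1 + (t.1 : ℤ))) (D * (N2 + (t.2 : ℤ)))).ncard : ℝ) ^ 2 := by
        have : (LF (D * (N1 + (t.1 : ℤ))) (D * (N2 + (t.2 : ℤ)))).ncard ≤
          (LF (D * (N1 + (t.1 : ℤ))) (D * (N2 + (t.2 : ℤ)))).ncard ^ 2 :=
          Nat.le_self_pow two_ne_zero _
        exact_mod_cast this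
      have h5 : 0 ≤ 2 * C1' / ε := by positivity
      calc _ ≤ _ := hn
        _ ≤ _ := pow_le_pow_left₀ (Nat.cast_nonneg _) hl 2
        _ ≤ 2 * C1' / ε := hs
        _ ≤ 2 * C1' / ε * 8 := by linarith
  have h11 := (card_le_card h10).trans (card_union_le _ _)
  have h12 := (Nat.cast_le (α := ℝ)).2 h11
  rw [Nat.cast_add] at h12
  linarith

end Pool.Agent.TH841.FD
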